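import Pool.Agent.Lib.NF98.Blue

namespace Pool.Agent.NF98

open Finset NumberField
open scoped IntermediateField

namespace ARCH

lemma conj (w : Fb) (hw : IsIntegral ℤ w) (h0 : w ≠ 0) : ∃ φ : Fb →+* ℂ, 1 ≤ ‖φ w‖ := by
  have hq : IsIntegral ℚ w := hw.tower_top
  have : FiniteDimensional ℚ ℚ⟮w⟯ := IntermediateField.adjoin.finiteDimensional hq
  have : NumberField ℚ⟮w⟯ := ⟨⟩
  let g : ℚ⟮w⟯ := IntermediateField.AdjoinSimple.gen ℚ w
  have hg : IsIntegral ℤ g :=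
    (isIntegral_algHom_iff (algebraMap ℚ⟮w⟯ Fb).toIntAlgHom (algebraMap ℚ⟮w⟯ Fb).injective).1 hw
  obtain ⟨σ, hσ⟩ := exists_conjugate_one_le_norm (K := ℚ⟮w⟯) (α := ⟨g, hg⟩) (fun h => h0 (by
    have := congrArg (fun x : 𝓞 ℚ⟮w⟯ => ((x : ℚ⟮w⟯) : Fb)) h
    exact this))
  let _ : Algebra ℚ⟮w⟯ ℂ := σ.toAlgebra
  have h1 : Algebra.IsAlgebraic ℚ Fb := AlgebraicClosure.isAlgebraic ℚ
  have h2 : Algebra.IsAlgebraic ℚ⟮w⟯ Fb := Algebra.IsAlgebraic.tower_top (K := ℚ) _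
  let φ : Fb →ₐ[ℚ⟮w⟯] ℂ := IsAlgClosed.lift
  exact ⟨φ.toRingHom, hσ.trans (le_of_eq (congrArg norm (φ.commutes g).symm))⟩

end ARCH

theorem blk_ARCH : St_ARCH := by
  refine ⟨fun x M B hx hM hB => ?_, fun N M w h => ?_⟩
  · obtain ⟨w, rfl⟩ := hM
    obtain ⟨φ, hφ⟩ := ARCH.conj (w : Fb) w.2 fun h => hx (by
      rw [show w = 0 from Subtype.ext h, mul_zero])
    have := hB φ
    simp only [MulMemClass.coe_mul, SubringClass.coe_natCast, map_mul, map_natCast, norm_mul,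
      Complex.norm_natCast] at this
    exact (le_mul_of_one_le_right (Nat.cast_nonneg M) hφ).trans this
  · rw [Matrix.det_apply]
    refine (norm_sum_le _ _).trans ?_
    have : ∀ s : Equiv.Perm (Fin N), ‖Equiv.Perm.sign s • ∏ i, M (s i) i‖ ≤ ∏ i, w i := by
      intro s
      have h1 : ‖Equiv.Perm.sign s • ∏ i, M (s i) i‖ = ‖∏ i, M (s i) i‖ := by
        rcases Int.units_eq_one_or (Equiv.Perm.sign s) with h | h <;> simp [h]
      rw [h1, norm_prod, ← Equiv.prod_comp s w]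
      exact prod_le_prod (fun _ _ => norm_nonneg _) fun i _ => h _ _
    refine (sum_le_sum fun s _ => this s).trans ?_
    simp [Fintype.card_perm]

end Pool.Agent.NF98
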