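import Pool.Agent.Lib.NF98.Blue

namespace Pool.Agent.NF98

open Finset Module

namespace BASIS

variable {ι σ F : Type} [Fintype ι] [Fintype σ] [Field F] (Z : ι → σ → F)

lemma mono : Monotone (Hf Z) := fun _ _ h =>
  Submodule.finrank_mono (Submodule.span_mono fun _ ⟨e, he, hw⟩ => ⟨e, he.trans h, hw⟩)

omit [Fintype ι] in
lemma ext (L : ℕ) (B : Finset (σ →₀ ℕ)) (h1 : ∀ e ∈ B, e.degree ≤ L)
    (h2 : LinearIndepOn F (evs Z) (B : Set (σ →₀ ℕ))) :
    ∃ B' : Finset (σ →₀ ℕ), B ⊆ B' ∧ (∀ e ∈ B', e.degree ≤ L) ∧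
      LinearIndepOn F (evs Z) (B' : Set (σ →₀ ℕ)) ∧ B'.card = Hf Z L := by
  obtain ⟨b, a1, a2, a3, a4⟩ := exists_linearIndepOn_extension h2
    (t := {e : σ →₀ ℕ | e.degree ≤ L}) fun e he => h1 e he
  lift b to Finset (σ →₀ ℕ) using (Finsupp.finite_of_degree_le L).subset a1
  refine ⟨b, a2, fun e he => a1 he, a4, ?_⟩
  have h3 : Vs Z L = Submodule.span F (Set.range fun e : b => evs Z e) := by
    refine le_antisymm (Submodule.span_le.2 ?_) (Submodule.span_mono ?_)
    · rintro _ ⟨e, he, rfl⟩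
      have := a3 ⟨e, he, rfl⟩
      rwa [Set.image_eq_range] at this
    · rintro _ ⟨e, rfl⟩
      exact ⟨e, a1 e.2, rfl⟩
  have a5 : LinearIndependent F fun e : b => evs Z e := a4
  rw [Hf, h3, finrank_span_eq_card a5]
  simp

lemma step (L : ℕ) : ∃ B : Finset (σ →₀ ℕ), (∀ e ∈ B, e.degree ≤ L) ∧
    LinearIndepOn F (evs Z) (B : Set (σ →₀ ℕ)) ∧ B.card = Hf Z L ∧
      ∑ e ∈ B, e.degree ≤ Phi (Hf Z) L := by
  classical
  induction L with
  | zero =>
    obtain ⟨B, -, h1, h2, h3⟩ := ext Z 0 ∅ (by simp) (by simp)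
    exact ⟨B, h1, h2, h3, (sum_le_sum h1).trans (by simp)⟩
  | succ L ih =>
    obtain ⟨B, h1, h2, h3, h4⟩ := ih
    obtain ⟨B', a0, a1, a2, a3⟩ := ext Z (L + 1) B (fun e he => (h1 e he).trans L.le_succ) h2
    refine ⟨B', a1, a2, a3, ?_⟩
    rw [← sum_sdiff a0]
    have b1 : ∑ e ∈ B' \ B, e.degree ≤ (Hf Z (L + 1) - Hf Z L) * (L + 1) := by
      rw [← a3, ← h3, ← card_sdiff_of_subset a0]
      exact sum_le_card_nsmul _ _ _ fun e he => a1 e (mem_sdiff.1 he).1
    have b2 : Phi (Hf Z) (L + 1) = (Hf Z (L + 1) - Hf Z L) * (L + 1) + Phi (Hf Z) L := by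
      have b3 : ∑ s ∈ range L, (Hf Z (L + 1) - Hf Z s) =
          ∑ s ∈ range L, ((Hf Z (L + 1) - Hf Z L) + (Hf Z L - Hf Z s)) := by
        refine sum_congr rfl fun s hs => ?_
        have := mono Z (mem_range.1 hs).le
        have := mono Z L.le_succ
        simp only [Nat.succ_eq_add_one] at this
        omega
      rw [Phi, Phi, sum_range_succ, b3, sum_add_distrib, sum_const, card_range, smul_eq_mul]
      ring
    omega

lemma cols {N : ℕ} (M : Matrix (Fin N) ι F) (h : LinearIndependent F M.row) :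
    ∃ col : Fin N → ι, (Matrix.of fun i j => M i (col j)).det ≠ 0 := by
  have h1 := h.rank_matrix
  rw [Matrix.rank_eq_finrank_span_cols] at h1
  obtain ⟨κ, a, ha, h2, h3⟩ := exists_linearIndependent' F M.col
  have := Fintype.ofInjective a ha
  rw [← h2, finrank_span_eq_card h3] at h1
  let e := (Fintype.equivOfCardEq h1).symm
  refine ⟨fun j => a (e j), ?_⟩
  have h4 : LinearIndependent F (Matrix.of fun i j => M i (a (e j))).col :=
    h3.comp e e.injective
  rw [Matrix.linearIndependent_cols_iff_isUnit, Matrix.isUnit_iff_isUnit_det] at h4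
  exact h4.ne_zero

end BASIS

theorem blk_BASIS : St_BASIS := by
  intro ι σ F _ _ _ Z L
  obtain ⟨B, -, h2, h3, h4⟩ := BASIS.step Z L
  let e : Fin (Hf Z L) ≃ B := (B.equivFinOfCardEq h3).symm
  obtain ⟨col, hc⟩ := BASIS.cols (Matrix.of fun i j => evs Z (e i) j)
    (LinearIndependent.comp h2 e e.injective)
  refine ⟨fun i => e i, col, ?_, hc⟩
  rw [e.sum_comp fun x => (x : σ →₀ ℕ).degree, sum_coe_sort B fun x => x.degree]
  exact h4

end Pool.Agent.NF98
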