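import Pool.Agent.Lib.NF98.Blue

/-! Size of the value of a fixed polynomial at a bounded point. -/

namespace Pool.Agent.NF98

open MvPolynomial Finset

theorem blk_DBND : St_DBND := by
  intro n r δ
  set A : ℝ := ∑ e ∈ δ.support, |((δ.coeff e : ℤ) : ℝ)| with hA
  have hA0 : 0 ≤ A := sum_nonneg fun _ _ => abs_nonneg _
  refine ⟨2 * A + δ.totalDegree, by positivity, ?_⟩
  intro T Z Δ hT hZ hv
  have hT1 : (1 : ℝ) ≤ T := by linarith
  have hT0 : (0 : ℝ) < T := by linarith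
  haveI : Algebra.IsAlgebraic ℚ Fb := AlgebraicClosure.isAlgebraic ℚ
  let φ : Fb →+* ℂ := (IsAlgClosed.lift : Fb →ₐ[ℚ] ℂ).toRingHom
  let ψ : Ob →+* ℂ := φ.comp (integralClosure ℤ Fb).val.toRingHom
  have hψ : ∀ v, ‖ψ (Z v)‖ ≤ T := fun v => hZ φ v
  have h1 : (Δ : ℂ) = ∑ e ∈ δ.support, ((δ.coeff e : ℤ) : ℂ) * ∏ v ∈ e.support, ψ (Z v) ^ e v := by
    rw [← map_intCast ψ, ← hv, aeval_def, eval₂_eq, map_sum]
    refine sum_congr rfl fun e _ => ?_
    simp
  have h2 : |(Δ : ℝ)| ≤ A * T ^ δ.totalDegree := by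
    rw [← Complex.norm_intCast, h1, hA, sum_mul]
    refine (norm_sum_le _ _).trans (sum_le_sum fun e he => ?_)
    rw [norm_mul, Complex.norm_intCast, norm_prod]
    refine mul_le_mul_of_nonneg_left ?_ (abs_nonneg _)
    calc ∏ v ∈ e.support, ‖ψ (Z v) ^ e v‖ ≤ ∏ v ∈ e.support, T ^ e v :=
          prod_le_prod (fun _ _ => norm_nonneg _) fun v _ => by
            rw [norm_pow]; exact pow_le_pow_left₀ (norm_nonneg _) (hψ v) _
      _ = T ^ (e.sum fun _ k => k) := by rw [prod_pow_eq_pow_sum]; rfl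
      _ ≤ _ := pow_le_pow_right₀ hT1 (le_totalDegree he)
  refine h2.trans ?_
  rw [Real.rpow_add hT0, Real.rpow_natCast]
  refine mul_le_mul_of_nonneg_right ?_ (by positivity)
  have hlog : (1 : ℝ) / 2 ≤ Real.log 2 := by
    have := Real.log_two_gt_d9
    linarith
  calc A ≤ Real.exp A := by linarith [Real.add_one_le_exp A]
    _ ≤ Real.exp (Real.log 2 * (2 * A)) := Real.exp_le_exp.2 (by nlinarith)
    _ = (2 : ℝ) ^ (2 * A) := (Real.rpow_def_of_pos two_pos _).symm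
    _ ≤ T ^ (2 * A) := Real.rpow_le_rpow zero_le_two hT (by positivity)

end Pool.Agent.NF98
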