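import Pool.Agent.Lib.NF98.Blue

/-! Divisibility of a determinant whose rows lie adically close to a flag of subspaces. -/

namespace Pool.Agent.NF98

open Finset Module

namespace DETP

variable {A F : Type} [CommRing A] [Field F] [Algebra A F] {N : ℕ}

/-- expansion of one row in powers of `π` -/
lemma expand (hinj : Function.Injective (algebraMap A F)) {π : A} (hπ : π ≠ 0)
    {U : ℕ → Submodule F (Fin N → F)} (hU : Monotone U) (m : Fin N → A) (J : ℕ)
    (h : ∀ t < J, ∃ a : Fin N → A, (fun j => algebraMap A F (a j)) ∈ U t ∧
      ∀ j, π ^ (t + 1) ∣ m j - a j) :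
    ∃ b : ℕ → Fin N → A, (∀ t < J, (fun j => algebraMap A F (b t j)) ∈ U t) ∧
      m = ∑ t ∈ range (J + 1), π ^ t • b t := by
  induction J with
  | zero => exact ⟨fun _ => m, by simp, by simp⟩
  | succ J ih =>
    obtain ⟨b, hb, hm⟩ := ih fun t ht => h t (by omega)
    obtain ⟨a, ha, hd⟩ := h J (by omega)
    choose c hc using hd
    have hπ' : algebraMap A F π ≠ 0 := fun e => hπ (hinj (by rw [e, map_zero]))
    have hm' : ∀ j, m j = ∑ t ∈ range J, π ^ t * b t j + π ^ J * b J j := by
      intro j
      conv_lhs => rw [hm]
      rw [sum_range_succ]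
      simp
    refine ⟨fun t => if t < J then b t else if t = J then b J - π • c else c, ?_, ?_⟩
    · intro t ht
      by_cases h1 : t < J
      · simpa only [if_pos h1] using hb t h1
      · have h2 : t = J := by omega
        subst h2
        simp only [lt_irrefl, if_false, if_true]
        have e : (fun j => algebraMap A F ((b t - π • c) j)) = ((algebraMap A F π) ^ t)⁻¹ •
            ((fun j => algebraMap A F (a j)) - ∑ s ∈ range t,
              (algebraMap A F π) ^ s • fun j => algebraMap A F (b s j)) := by
          funext j
          have e1 : π ^ t * (b t j - π * c j) = a j - ∑ s ∈ range t, π ^ s * b s j := by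
            have := hc j
            rw [hm' j] at this
            linear_combination this
          have e2 := congrArg (algebraMap A F) e1
          simp only [map_mul, map_pow, map_sub, map_sum] at e2
          simp only [Pi.smul_apply, Pi.sub_apply, Finset.sum_apply, smul_eq_mul, map_sub, map_mul]
          rw [← e2, inv_mul_cancel_left₀ (pow_ne_zero _ hπ')]
        rw [e]
        exact (U t).smul_mem _ ((U t).sub_mem ha ((U t).sum_mem fun s hs =>
          (U t).smul_mem _ (hU (mem_range.1 hs).le (hb s (mem_range.1 hs)))))
    · funext j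
      rw [sum_range_succ, sum_range_succ]
      beta_reduce
      rw [if_neg (lt_irrefl _), if_pos rfl, if_neg (show ¬ J + 1 < J by omega),
        if_neg (show ¬ J + 1 = J by omega),
        sum_congr rfl fun t ht => by rw [if_pos (mem_range.1 ht)]]
      simp only [Pi.add_apply, Finset.sum_apply, Pi.smul_apply, Pi.sub_apply, smul_eq_mul]
      rw [hm' j]
      ring

/-- rows of a nonsingular matrix lying in a subspace -/
lemma card_le (hinj : Function.Injective (algebraMap A F)) {B : Matrix (Fin N) (Fin N) A}
    (hB : B.det ≠ 0) (U : Submodule F (Fin N → F)) (S : Finset (Fin N))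
    (hS : ∀ i ∈ S, (fun j => algebraMap A F (B i j)) ∈ U) : S.card ≤ finrank F U := by
  have h1 : ((algebraMap A F).mapMatrix B).det ≠ 0 := by
    rw [← RingHom.map_det]
    exact fun e => hB (hinj (by rw [e, map_zero]))
  have h2 : LinearIndependent F ((algebraMap A F).mapMatrix B).row :=
    Matrix.linearIndependent_rows_iff_isUnit.2
      ((Matrix.isUnit_iff_isUnit_det _).2 (isUnit_iff_ne_zero.2 h1))
  have h3 : LinearIndependent F (fun i : S => (⟨_, hS i i.2⟩ : U)) :=
    LinearIndependent.of_comp U.subtype (h2.comp (fun i : S => (i : Fin N)) Subtype.val_injective)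
  simpa using h3.fintype_card_le_finrank

lemma sum_le (J : ℕ) (ρ : ℕ → ℕ) (κ : Fin N → ℕ)
    (h : ∀ t < J, (univ.filter fun i => κ i ≤ t).card ≤ ρ t) :
    ∑ t ∈ range J, (N - ρ t) ≤ ∑ i, κ i := by
  calc ∑ t ∈ range J, (N - ρ t) ≤ ∑ t ∈ range J, ∑ i : Fin N, if t < κ i then 1 else 0 := by
        refine sum_le_sum fun t ht => ?_
        have h1 := h t (mem_range.1 ht)
        have h2 := card_filter_add_card_filter_not (s := (univ : Finset (Fin N)))
          (fun i => κ i ≤ t)
        rw [← card_filter]
        simp only [not_le, card_univ, Fintype.card_fin] at h2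
        omega
    _ ≤ ∑ i, κ i := by
        rw [sum_comm]
        refine sum_le_sum fun i _ => ?_
        rw [← card_filter]
        calc _ ≤ (range (κ i)).card :=
              card_le_card fun t ht => mem_range.2 (mem_filter.1 ht).2
          _ = κ i := card_range _

end DETP

theorem blk_DETP : St_DETP := by
  intro A F _ _ _ hinj N J π U ρ M hπ hU hρ h
  choose b hb hM using fun i => DETP.expand hinj hπ hU (M i) J (h i)
  have e : M.det = ∑ κ ∈ Fintype.piFinset (fun _ : Fin N => range (J + 1)),
      (∏ i, π ^ κ i) * (Matrix.of fun i => b i (κ i)).det := by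
    have e1 : M.det = Matrix.detRowAlternating.toMultilinearMap
        (fun i => ∑ t ∈ range (J + 1), π ^ t • b i t) := by
      change Matrix.detRowAlternating.toMultilinearMap M = _
      congr 1
      funext i
      exact hM i
    rw [e1, MultilinearMap.map_sum_finset]
    refine sum_congr rfl fun κ _ => ?_
    rw [MultilinearMap.map_smul_univ]
    rfl
  rw [e]
  refine dvd_sum fun κ _ => ?_
  by_cases h0 : (Matrix.of fun i => b i (κ i)).det = 0
  · rw [h0, mul_zero]
    exact dvd_zero _
  · refine Dvd.dvd.mul_right ?_ _
    rw [prod_pow_eq_pow_sum]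
    refine pow_dvd_pow _ (DETP.sum_le J ρ κ fun t ht => ?_)
    refine (DETP.card_le hinj h0 (U t) _ fun i hi => ?_).trans (hρ t)
    have hi' := (mem_filter.1 hi).2
    exact hU hi' (hb i (κ i) (by omega))

end Pool.Agent.NF98
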