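import Pool.Agent.Lib.NF98.Blue

/-! Block FROB: Frobenius permutes the points. -/

namespace Pool.Agent.NF98

open Finset

namespace FROB

open Polynomial

variable {A : Type} [CommRing A] {p : ℕ}

theorem dvd_frob (hp : p.Prime) (y : A) (f : ℤ[X]) :
    (p : A) ∣ (f.map (Int.castRingHom A)).eval y ^ p - (f.map (Int.castRingHom A)).eval (y ^ p) := by
  induction f using Polynomial.induction_on' with
  | add f g hf hg =>
    obtain ⟨r, hr⟩ := exists_add_pow_prime_eq hp ((f.map (Int.castRingHom A)).eval y)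
      ((g.map (Int.castRingHom A)).eval y)
    rw [Polynomial.map_add, eval_add, eval_add, hr, add_sub_right_comm, add_sub_add_comm, mul_assoc,
      mul_assoc]
    exact dvd_add (dvd_add hf hg) (dvd_mul_right _ _)
  | monomial n a =>
    rw [Polynomial.map_monomial, eval_monomial, eval_monomial, mul_pow, ← pow_mul, ← pow_mul,
      mul_comm n, ← sub_mul, ← map_pow, ← map_sub]
    have := _root_.map_dvd (Int.castRingHom A) (Int.prime_dvd_pow_self_sub hp a)
    rw [map_natCast] at this
    exact this.mul_right _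

theorem frob_mem (hp : p.Prime) (y z : A) (f : ℤ[X]) :
    (f.map (Int.castRingHom A)).eval y ^ p - (f.map (Int.castRingHom A)).eval z ∈
      Ideal.span {(p : A)} ⊔ Ideal.span {y ^ p - z} := by
  have := Submodule.add_mem_sup (Ideal.mem_span_singleton.2 (dvd_frob hp y f))
    (Ideal.mem_span_singleton.2 (sub_dvd_eval_sub (y ^ p) z (f.map (Int.castRingHom A))))
  rwa [sub_add_sub_cancel] at this

theorem eval_lag {n : ℕ} (x w : Fin n → A) (j : Fin n) :
    (∑ l, C (w l) * ∏ m ∈ univ.erase l, (X - C (x m))).eval (x j) =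
      w j * ∏ m ∈ univ.erase j, (x j - x m) := by
  simp only [eval_finsetSum, eval_mul, eval_C, eval_prod, eval_sub, eval_X]
  refine sum_eq_single j (fun l _ h => ?_) (by simp)
  rw [prod_eq_zero (mem_erase.2 ⟨h.symm, mem_univ j⟩) (sub_self _), mul_zero]

theorem prod_le {ι : Type} (P : Ideal A) (a : ι → A) (s : Finset ι) :
    ∏ j ∈ s, (P ⊔ Ideal.span {a j}) ≤ P ⊔ Ideal.span {∏ j ∈ s, a j} := by
  classical
  induction s using Finset.induction_on with
  | empty => simp
  | insert j s hj ih =>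
    rw [prod_insert hj, prod_insert hj, ← Ideal.span_singleton_mul_span_singleton]
    refine (Ideal.mul_mono_right ih).trans ?_
    rw [Ideal.sup_mul, Ideal.mul_sup (Ideal.span {a j}) P]
    exact sup_le (le_sup_of_le_left Ideal.mul_le_left)
      (sup_le (le_sup_of_le_left Ideal.mul_le_right) le_sup_right)

end FROB

open FROB in
theorem blk_FROB : St_FROB := by
  intro n r δ c0 A _ Z Δ p hp hG hΔ k h hh i
  have c1 : IsCoprime (p : A) (Δ : A) := by
    simpa using ((Nat.prime_iff_prime_int.1 hp).irreducible.coprime_iff_not_dvd.2 hΔ).map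
      (Int.castRingHom A)
  have c2 : ∀ j l, j ≠ l → IsCoprime (p : A) (Z (j, c0) - Z (l, c0)) := fun j l e =>
    c1.of_isCoprime_of_dvd_right (hG.dif j l e)
  obtain ⟨f, hf⟩ := hG.lift
  let I : Fin n → Ideal A := fun j => Ideal.span {(p : A)} ⊔ Ideal.span {Z (i, c0) ^ p - Z (j, c0)}
  have hpI : ∀ j, (p : A) ∈ I j := fun j => Ideal.mem_sup_left (Ideal.mem_span_singleton_self _)
  have huI : ∀ j, Z (i, c0) ^ p - Z (j, c0) ∈ I j := fun j =>
    Ideal.mem_sup_right (Ideal.mem_span_singleton_self _)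
  have h1 : ∀ j c, Z (i, c) ^ p - Z (j, c) ∈ I j := fun j c => by
    obtain ⟨G, hG⟩ := hG.lag c
    have e1 := frob_mem hp (Z (i, c0)) (Z (j, c0)) G
    have e2 := frob_mem hp (Z (i, c0)) (Z (j, c0)) f.derivative
    have e3 : f.derivative.map (Int.castRingHom A) = ∑ l, Polynomial.C ((fun _ => 1) l) *
        ∏ m ∈ univ.erase l, (Polynomial.X - Polynomial.C (Z (m, c0))) := by
      rw [← Polynomial.derivative_map, hf, Polynomial.derivative_prod_finset]
      simp
    rw [hG, eval_lag (fun m => Z (m, c0)) (fun l => Z (l, c)),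
      eval_lag (fun m => Z (m, c0)) (fun l => Z (l, c))] at e1
    rw [e3, eval_lag (fun m => Z (m, c0)), eval_lag (fun m => Z (m, c0))] at e2
    obtain ⟨a, b, e4⟩ : IsCoprime (p : A) (∏ m ∈ univ.erase j, (Z (j, c0) - Z (m, c0))) :=
      IsCoprime.prod_right fun m hm => c2 j m (mem_erase.1 hm).1.symm
    have := add_mem (Ideal.mul_mem_left _ (a * (Z (i, c) ^ p - Z (j, c))) (hpI j))
      (Ideal.mul_mem_left _ b (sub_mem e1 (Ideal.mul_mem_left _ (Z (i, c) ^ p) e2)))
    convert this using 1
    linear_combination (-(Z (i, c) ^ p - Z (j, c))) * e4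
  have h2 : ∀ j, MvPolynomial.eval₂Hom (MvPolynomial.aeval Z : R n r →ₐ[ℤ] A).toRingHom
      (fun c => Z (i, c) ^ p) h ∈ I j ^ k := fun j => by
    have := Ideal.mem_map_of_mem (MvPolynomial.eval₂Hom
      (MvPolynomial.aeval Z : R n r →ₐ[ℤ] A).toRingHom fun c => Z (i, c) ^ p) (hh j)
    rw [Ideal.map_pow] at this
    refine Ideal.pow_right_mono (Ideal.map_le_iff_le_comap.2 (Ideal.span_le.2 ?_)) k this
    rintro _ ⟨c, rfl⟩
    simpa using h1 j c
  have h3 : ((univ : Finset (Fin n)) : Set (Fin n)).Pairwise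
      (Function.onFun IsCoprime fun j => I j ^ k) := fun j _ l _ e => by
    refine IsCoprime.pow (Ideal.isCoprime_iff_sup_eq.2 ((Ideal.eq_top_iff_one _).2 ?_))
    obtain ⟨a, b, e4⟩ := c2 j l e
    have := add_mem (Ideal.mul_mem_left _ a (Ideal.mem_sup_left (T := I l) (hpI j)))
      (Ideal.mul_mem_left _ b (sub_mem (Ideal.mem_sup_right (huI l)) (Ideal.mem_sup_left (huI j))))
    convert this using 1
    linear_combination -e4
  have h4 : ∏ j, I j ≤ Ideal.span {(p : A)} := by
    refine (prod_le _ _ _).trans (sup_le le_rfl (Ideal.span_singleton_le_span_singleton.2 ?_))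
    have := dvd_frob hp (Z (i, c0)) f
    simp only [hf, Polynomial.eval_prod, Polynomial.eval_sub, Polynomial.eval_X,
      Polynomial.eval_C] at this
    rwa [prod_eq_zero (mem_univ i) (sub_self _), zero_pow hp.ne_zero, zero_sub, dvd_neg] at this
  rw [← Ideal.mem_span_singleton, ← Ideal.span_singleton_pow]
  refine Ideal.pow_right_mono h4 k ?_
  rw [← prod_pow, Ideal.prod_eq_iInf_of_pairwise_isCoprime h3]
  simpa using h2

end Pool.Agent.NF98
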