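import Pool.Agent.Lib.NF98.Blue

/-! The determinant inequality. -/

namespace Pool.Agent.NF98

open MvPolynomial Finset Module

namespace INEQ

lemma sum_log_le (P : Finset ℕ) (hP : ∀ p ∈ P, p.Prime) {D : ℤ} (hD : D ≠ 0) {B : ℝ}
    (hB : |(D : ℝ)| ≤ B) :
    ∑ p ∈ P, (if (p : ℤ) ∣ D then Real.log p else 0) ≤ Real.log B := by
  rw [← sum_filter, ← Real.log_prod fun p hp =>
    (Nat.cast_pos.2 (hP p (mem_filter.1 hp).1).pos).ne']
  have h1 : (∏ p ∈ P.filter fun p : ℕ => (p : ℤ) ∣ D, p) ∣ D.natAbs :=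
    Finset.prod_primes_dvd _ (fun p hp => (hP p (mem_filter.1 hp).1).prime)
      fun p hp => Int.natCast_dvd.1 (mem_filter.1 hp).2
  have h2 := Nat.le_of_dvd (Int.natAbs_pos.2 hD) h1
  refine Real.log_le_log (prod_pos fun p hp => Nat.cast_pos.2 (hP p (mem_filter.1 hp).1).pos)
    (le_trans ?_ hB)
  rw [← Nat.cast_prod, ← Int.cast_abs, ← Nat.cast_natAbs]
  exact_mod_cast h2

end INEQ

theorem blk_INEQ (h : St_ONEP) (h2 : St_BASIS) (h3 : St_ARCH) : St_INEQ := by
  intro n r δ c0 s k hR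
  obtain ⟨c, hc⟩ := h n r δ c0 s k hR
  refine ⟨c, fun ι _ Z Δ T B hT hZ L P hP => ?_⟩
  have hb := h2 ι (V n r) Fb (fun x v => (Z x v : Fb)) L
  set H := Hf fun x v => (Z x v : Fb) with hH
  obtain ⟨e, col, he, hdet⟩ := hb
  refine ⟨fun p => (univ.filter fun j => (p : ℤ) ∣ Δ (col j)).card, ?_, ?_⟩
  · have h1 : ∀ p : ℕ, ((univ.filter fun j => (p : ℤ) ∣ Δ (col j)).card : ℝ) * Real.log p =
        ∑ j, if (p : ℤ) ∣ Δ (col j) then Real.log p else 0 := fun p => by
      rw [← sum_filter, sum_const, nsmul_eq_mul]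
    simp only [h1]
    rw [sum_comm]
    refine (sum_le_sum fun j _ => INEQ.sum_log_le P (fun p hp => (hP p hp).1)
      (hZ (col j)).1.ne (hZ (col j)).2.2).trans ?_
    simp
  · set E : ℕ → ℕ := fun p => k * ∑ t ∈ range (L / p + 1),
      (H L - (H ((n * (s + r) + 2) * p + t * ((s + 1) * p)) +
        (univ.filter fun j => (p : ℤ) ∣ Δ (col j)).card)) with hE
    set A : Matrix (Fin (H L)) (Fin (H L)) Ob :=
      Matrix.of fun i j => ∏ v, Z (col j) v ^ e i v with hA
    have hmap : ((A.det : Ob) : Fb) =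
        (Matrix.of fun i j => evs (fun x v => (Z x v : Fb)) (e i) (col j)).det := by
      have := RingHom.map_det (algebraMap Ob Fb) A
      refine this.trans (congrArg Matrix.det ?_)
      ext i j
      simp [hA, evs]
    have hne : A.det ≠ 0 := fun h0 => hdet (by rw [← hmap, h0]; rfl)
    have hdvd : ((∏ p ∈ P, p ^ E p : ℕ) : Ob) ∣ A.det := by
      rw [Nat.cast_prod]
      refine Finset.prod_dvd_of_coprime (fun p hp q hq hpq => ?_) fun p hp => ?_
      · exact (Nat.Coprime.pow _ _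
          ((Nat.coprime_primes (hP p hp).1 (hP q hq).1).2 hpq)).cast
      · rw [Nat.cast_pow]
        exact hc p (hP p hp).1 (hP p hp).2 ι Z Δ (fun x => (hZ x).1) _ _ e col
    have hT0 : (0 : ℝ) < T := by linarith
    have hle := h3.1 A.det _ ((H L).factorial * T ^ Phi H L) hne hdvd (by
      intro φ
      rw [hmap, RingHom.map_det]
      refine (h3.2 _ _ (fun i => T ^ (e i).degree) fun i j => ?_).trans ?_
      · simp only [RingHom.mapMatrix_apply, Matrix.map_apply, Matrix.of_apply, evs, map_prod,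
          map_pow, norm_prod, norm_pow]
        rw [Finsupp.degree_eq_sum, ← prod_pow_eq_pow_sum]
        exact prod_le_prod (fun v _ => by positivity) fun v _ =>
          pow_le_pow_left₀ (norm_nonneg _) ((hZ (col j)).2.1 φ v) _
      · rw [prod_pow_eq_pow_sum]
        exact mul_le_mul_of_nonneg_left (pow_le_pow_right₀ hT he) (Nat.cast_nonneg _))
    have hpos : ∀ p ∈ P, (0 : ℝ) < (p : ℝ) ^ E p := fun p hp =>
      pow_pos (Nat.cast_pos.2 (hP p hp).1.pos) _
    push_cast at hle
    have := Real.log_le_log (prod_pos hpos) hle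
    rw [Real.log_prod fun p hp => (hpos p hp).ne', Real.log_mul
      (Nat.cast_pos.2 (Nat.factorial_pos _)).ne' (pow_pos hT0 _).ne', Real.log_pow] at this
    simp only [Real.log_pow] at this
    exact this

end Pool.Agent.NF98
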