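import Pool.Agent.Lib.NF98.Blue

/-! Iterating the saturation inequality. -/

namespace Pool.Agent.NF98

theorem blk_ITER : St_ITER := by
  intro θ hθ
  set u : ℝ := θ / (1 + θ) with hu
  have h1 : 0 < 1 + θ := by linarith
  have hu0 : 0 < u := div_pos hθ h1
  have hu1 : (1 - u) * (1 + θ) = 1 := by rw [hu]; field_simp; ring
  have hu2 : u * (1 + θ) = θ := by rw [hu]; field_simp
  have hlt : (2 : ℝ) ^ (-u) < 1 := Real.rpow_lt_one_of_one_lt_of_neg one_lt_two (by linarith)
  refine ⟨1 - (2 : ℝ) ^ (-u), (2 : ℝ) ^ θ, by linarith, Real.one_le_rpow one_le_two hθ.le, ?_⟩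
  intro H l M B hl hB hmono hM hHl hsat
  have hstep : ∀ t : ℕ, (H (2 ^ t * l) : ℝ) ≤ ((2 : ℝ) ^ u) ^ t * B := by
    intro t
    induction t with
    | zero => simpa using hHl
    | succ t ih =>
      have h2 := hsat (2 ^ t * l) (Nat.le_mul_of_pos_left l (by positivity))
      rw [sub_sub_cancel, Real.rpow_neg zero_le_two, inv_mul_le_iff₀ (by positivity),
        ← mul_assoc, ← pow_succ'] at h2
      refine h2.trans ?_
      rw [pow_succ', mul_assoc]
      exact mul_le_mul_of_nonneg_left ih (by positivity)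
  rcases Nat.eq_zero_or_pos M with rfl | hM0
  · rw [Nat.cast_zero]; positivity
  have hMr : (0 : ℝ) < M := by exact_mod_cast hM0
  set t := Nat.clog 2 M with ht
  have h3 : M ≤ 2 ^ t := Nat.le_pow_clog one_lt_two M
  have h4 : 2 ^ t ≤ 2 * M := by
    rcases Nat.eq_or_lt_of_le hM0 with h | h
    · have : M = 1 := h.symm
      simp [ht, this]
    · have h5 := Nat.pow_pred_clog_lt_self one_lt_two h
      have h6 : 0 < t := Nat.clog_pos one_lt_two h
      obtain ⟨t', ht'⟩ : ∃ t', t = t' + 1 := ⟨t - 1, by omega⟩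
      rw [← ht, ht', Nat.pred_succ] at h5
      rw [ht', pow_succ]
      omega
  have h5 : (M : ℝ) ≤ (2 * M) ^ u * B := by
    calc (M : ℝ) = H M := by rw [hM]
      _ ≤ H (2 ^ t * l) := by
          exact_mod_cast hmono (h3.trans (Nat.le_mul_of_pos_right _ hl))
      _ ≤ ((2 : ℝ) ^ u) ^ t * B := hstep t
      _ = ((2 : ℝ) ^ t) ^ u * B := by
          rw [← Real.rpow_natCast, ← Real.rpow_mul zero_le_two, mul_comm u,
            Real.rpow_mul zero_le_two, Real.rpow_natCast]
      _ ≤ _ := by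
          refine mul_le_mul_of_nonneg_right
            (Real.rpow_le_rpow (by positivity) ?_ hu0.le) (by linarith)
          exact_mod_cast h4
  have h6 : (M : ℝ) ^ (1 - u) ≤ 2 ^ u * B := by
    rw [Real.rpow_sub hMr, Real.rpow_one, div_le_iff₀ (by positivity)]
    rw [Real.mul_rpow zero_le_two hMr.le] at h5
    linarith
  calc (M : ℝ) = ((M : ℝ) ^ (1 - u)) ^ (1 + θ) := by
        rw [← Real.rpow_mul hMr.le, hu1, Real.rpow_one]
    _ ≤ (2 ^ u * B) ^ (1 + θ) := Real.rpow_le_rpow (by positivity) h6 h1.le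
    _ = _ := by
        rw [Real.mul_rpow (by positivity) (by linarith), ← Real.rpow_mul zero_le_two, hu2]

end Pool.Agent.NF98
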