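import Pool.Agent.Lib.NF98.Blue

/-! A Mertens type lower bound. -/

namespace Pool.Agent.NF98

open Finset

namespace MERT

lemma log_fact_ge (y : ℕ) (hy : 1 ≤ y) :
    (y : ℝ) * Real.log y - y ≤ Real.log (y.factorial) := by
  have hy0 : (0 : ℝ) < y := Nat.cast_pos.2 hy
  have hf : (0 : ℝ) < y.factorial := Nat.cast_pos.2 y.factorial_pos
  have h1 := Real.pow_div_factorial_le_exp (y : ℝ) hy0.le y
  have h2 := Real.log_le_log (by positivity) h1
  rw [Real.log_exp, Real.log_div (by positivity) hf.ne', Real.log_pow] at h2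
  linarith

lemma log_fact_le (y : ℕ) : Real.log (y.factorial) ≤
    y * ∑ p ∈ (Ioc 0 y).filter Nat.Prime, Real.log p / ((p : ℝ) - 1) := by
  rw [Real.log_nat_eq_sum_factorization, Finsupp.sum, mul_sum]
  have hs : y.factorial.factorization.support = (Ioc 0 y).filter Nat.Prime := by
    ext p
    simp only [Nat.support_factorization, Nat.mem_primeFactors, mem_filter, mem_Ioc]
    constructor
    · rintro ⟨h1, h2, -⟩
      exact ⟨⟨h1.pos, h1.dvd_factorial.1 h2⟩, h1⟩
    · rintro ⟨⟨-, h2⟩, h1⟩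
      exact ⟨h1, h1.dvd_factorial.2 h2, y.factorial_ne_zero⟩
  rw [hs]
  refine sum_le_sum fun p hp => ?_
  have h1 := (mem_filter.1 hp).2
  have h2 : (2 : ℝ) ≤ p := by exact_mod_cast h1.two_le
  have h3 : (p - 1) * y.factorial.factorization p ≤ y := by
    have := Fact.mk h1
    rw [Nat.factorization_def _ h1, sub_one_mul_padicValNat_factorial]
    exact Nat.sub_le _ _
  have h4 : ((p : ℝ) - 1) * y.factorial.factorization p ≤ y := by
    have : (((p - 1) * y.factorial.factorization p : ℕ) : ℝ) ≤ y := by exact_mod_cast h3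
    rwa [Nat.cast_mul, Nat.cast_pred h1.pos] at this
  have h5 : 0 ≤ Real.log p := Real.log_nonneg (by linarith)
  rw [← mul_div_assoc, le_div_iff₀ (by linarith)]
  nlinarith

end MERT

theorem blk_MERT : St_MERT := by
  intro y W hy
  have hy0 : (0 : ℝ) < y := Nat.cast_pos.2 hy
  have h1 : Real.log y - 1 ≤ ∑ p ∈ (Ioc 0 y).filter Nat.Prime, Real.log p / ((p : ℝ) - 1) := by
    refine le_of_mul_le_mul_left ?_ hy0
    have := MERT.log_fact_ge y hy
    have := MERT.log_fact_le y
    linarith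
  have hnn : ∀ p : ℕ, p.Prime → 0 ≤ Real.log p / ((p : ℝ) - 1) ∧
      Real.log p / ((p : ℝ) - 1) ≤ 1 := fun p hp => by
    have h2 : (2 : ℝ) ≤ p := by exact_mod_cast hp.two_le
    refine ⟨div_nonneg (Real.log_nonneg (by linarith)) (by linarith), ?_⟩
    rw [div_le_one (by linarith)]
    exact Real.log_le_sub_one_of_pos (by linarith)
  have h2 : (Ioc 0 y).filter Nat.Prime ⊆
      (Ioc 0 W).filter Nat.Prime ∪ (Ioc W y).filter Nat.Prime := by
    intro p hp
    simp only [mem_union, mem_filter, mem_Ioc] at hp ⊢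
    by_cases h : p ≤ W
    · exact .inl ⟨⟨hp.1.1, h⟩, hp.2⟩
    · exact .inr ⟨⟨not_le.1 h, hp.1.2⟩, hp.2⟩
  have h3 := sum_le_sum_of_subset_of_nonneg (f := fun p : ℕ => Real.log p / ((p : ℝ) - 1)) h2
    fun p hp _ => (hnn p (by
      rcases mem_union.1 hp with h | h <;> exact (mem_filter.1 h).2)).1
  rw [sum_union (disjoint_filter_filter (by
    rw [disjoint_left]
    intro p a b
    rw [mem_Ioc] at a b
    omega))] at h3
  have h4 : ∑ p ∈ (Ioc 0 W).filter Nat.Prime, Real.log p / ((p : ℝ) - 1) ≤ W := by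
    refine (sum_le_card_nsmul _ _ 1 fun p hp => (hnn p (mem_filter.1 hp).2).2).trans ?_
    rw [nsmul_eq_mul, mul_one]
    exact_mod_cast (card_filter_le _ _).trans (by simp)
  linarith

end Pool.Agent.NF98
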