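import Pool.Agent.Lib.NF98.Blue

/-! The determinant inequality in closed form. -/

namespace Pool.Agent.NF98

open Finset

namespace NUMA

lemma cover {H : ℕ → ℕ} (hH : Monotone H) (N u γ J : ℕ) :
    ∑ j ∈ range (u + J * γ), (N - H j) ≤ u * N + γ * ∑ t ∈ range J, (N - H (u + t * γ)) := by
  induction J with
  | zero =>
    simpa using sum_le_card_nsmul (range u) (fun j => N - H j) N fun j _ => Nat.sub_le _ _
  | succ J ih =>
    rw [add_mul, one_mul, ← add_assoc, sum_range_add, sum_range_succ, mul_add, ← add_assoc]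
    refine add_le_add ih ?_
    simpa using sum_le_card_nsmul (range γ) (fun j => N - H (u + J * γ + j)) (N - H (u + J * γ))
      fun j _ => Nat.sub_le_sub_left (hH (Nat.le_add_right _ _)) _

lemma one {H : ℕ → ℕ} (hH : Monotone H) (a s L p b : ℕ) (hp : 0 < p) :
    Phi H L ≤ a * p * H L + (s + 1) * p * (∑ t ∈ range (L / p + 1),
      (H L - (H (a * p + t * ((s + 1) * p)) + b)) + (L / p + 1) * b) := by
  have h1 : L ≤ a * p + (L / p + 1) * ((s + 1) * p) := by
    have := Nat.lt_div_mul_add (a := L) hp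
    nlinarith [Nat.zero_le (a * p), Nat.zero_le ((L / p + 1) * (s * p))]
  refine (sum_le_sum_of_subset (range_mono h1)).trans ((cover hH _ _ _ _).trans ?_)
  refine Nat.add_le_add_left (Nat.mul_le_mul_left _ ?_) _
  have h2 : (L / p + 1) * b = ∑ _t ∈ range (L / p + 1), b := by simp
  rw [h2, ← sum_add_distrib]
  exact sum_le_sum fun t _ => by omega

end NUMA

theorem blk_NUMA (h : St_MERT) : St_NUMA := by
  intro a s k c H T B hB hH hI L W hc hs hL
  obtain ⟨β, h1, h2⟩ := hI L ((Ioc W L).filter Nat.Prime) fun p hp => by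
    have := mem_Ioc.1 (mem_filter.1 hp).1
    exact ⟨(mem_filter.1 hp).2, by omega⟩
  set P := (Ioc W L).filter Nat.Prime with hP
  have hW : (0 : ℝ) < W := by exact_mod_cast (by omega : 0 < W)
  have hk : (0 : ℝ) ≤ k := Nat.cast_nonneg k
  have key : ∀ p ∈ P, (k : ℝ) / (s + 2) * Phi H L * (Real.log p / ((p : ℝ) - 1)) ≤
      ((k * ∑ t ∈ range (L / p + 1), (H L - (H (a * p + t * ((s + 1) * p)) + β p)) : ℕ) : ℝ) *
        Real.log p + k * a * H L * Real.log p + 2 * k * L / W * (β p * Real.log p) := by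
    intro p hp
    obtain ⟨hp1, hp2⟩ := mem_Ioc.1 (mem_filter.1 hp).1
    have hp0 : 0 < p := by omega
    have hpR : (s : ℝ) + 2 ≤ p := by exact_mod_cast (by omega : s + 2 ≤ p)
    have hs0 : (0 : ℝ) ≤ s := Nat.cast_nonneg s
    have hlog : 0 ≤ Real.log p := Real.log_natCast_nonneg p
    have hJ : ((L / p + 1 : ℕ) : ℝ) ≤ 2 * L / W := by
      have a1 : (L / p + 1) * W ≤ 2 * L := by
        have := Nat.div_mul_le_self L p
        nlinarith [Nat.zero_le (L / p)]
      rw [le_div_iff₀ hW]
      exact_mod_cast a1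
    have h3 := NUMA.one hH a s L p (β p) hp0
    set S := ∑ t ∈ range (L / p + 1), (H L - (H (a * p + t * ((s + 1) * p)) + β p))
    set J := L / p + 1
    have h4 : (Phi H L : ℝ) ≤ a * p * H L + (s + 1) * p * (S + J * β p) := by exact_mod_cast h3
    have h5 : (Phi H L : ℝ) / ((s + 2) * (p - 1)) ≤ S + a * H L + 2 * L / W * β p := by
      rw [div_le_iff₀ (mul_pos (by linarith) (by linarith))]
      have b1 : (J : ℝ) * β p ≤ 2 * L / W * β p := mul_le_mul_of_nonneg_right hJ (by positivity)
      have b2 : ((s : ℝ) + 1) * p ≤ (s + 2) * (p - 1) := by nlinarith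
      have b3 : (0 : ℝ) ≤ S + a * H L + 2 * L / W * β p := by positivity
      have b4 : (0 : ℝ) ≤ s * p * (a * H L) := by positivity
      have b5 : (0 : ℝ) ≤ (s + 1) * p := by positivity
      have b6 := mul_le_mul_of_nonneg_left b2 b3
      have b7 := mul_le_mul_of_nonneg_left b1 b5
      nlinarith
    have h6 := mul_le_mul_of_nonneg_left h5 (mul_nonneg hk hlog)
    push_cast
    calc (k : ℝ) / (s + 2) * Phi H L * (Real.log p / ((p : ℝ) - 1))
        = k * Real.log p * (Phi H L / ((s + 2) * (p - 1))) := by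
          rw [← div_div]; ring
      _ ≤ _ := h6
      _ = _ := by ring
  have h3 := sum_le_sum key
  rw [← mul_sum, sum_add_distrib, sum_add_distrib, ← mul_sum, ← mul_sum] at h3
  have h4 := mul_le_mul_of_nonneg_left (h L W hL)
    (show (0 : ℝ) ≤ (k : ℝ) / (s + 2) * Phi H L by positivity)
  have h5 : ∑ p ∈ P, Real.log p ≤ 2 * L := by
    have a1 := Chebyshev.theta_le_log4_mul_x (x := L) (Nat.cast_nonneg L)
    rw [Chebyshev.theta, Nat.floor_natCast] at a1
    have a2 : ∑ p ∈ P, Real.log p ≤ ∑ p ∈ Ioc 0 L with p.Prime, Real.log p :=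
      sum_le_sum_of_subset_of_nonneg
        (filter_subset_filter _ (Ioc_subset_Ioc_left (Nat.zero_le W)))
        fun p _ _ => Real.log_natCast_nonneg p
    have a3 : Real.log 4 ≤ 2 := by
      rw [show (4 : ℝ) = 2 ^ 2 by norm_num, Real.log_pow]
      have := Real.log_two_lt_d9
      push_cast; linarith
    have a4 := mul_le_mul_of_nonneg_right a3 (Nat.cast_nonneg (α := ℝ) L)
    linarith
  have h6 : Real.log ((H L).factorial) ≤ H L * Real.log (H L) := by
    rw [← Real.log_pow]
    exact Real.log_le_log (by exact_mod_cast (H L).factorial_pos)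
      (by exact_mod_cast (H L).factorial_le_pow)
  have h7 := mul_le_mul_of_nonneg_left h5 (show (0 : ℝ) ≤ k * a * H L by positivity)
  have h8 := mul_le_mul_of_nonneg_left h1 (show (0 : ℝ) ≤ 2 * k * L / W by positivity)
  have h9 : 2 * k * L / W * (H L * Real.log B) = 2 * k * L * H L * Real.log B / W := by ring
  linarith

end Pool.Agent.NF98
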