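import Pool.Agent.Lib.NF98.Blue

namespace Pool.Agent.NF98

open Finset

namespace NUMB

lemma phi_ge (H : ℕ → ℕ) (hH : Monotone H) (l : ℕ) :
    (l : ℝ) * ((H (2 * l) : ℝ) - H l) ≤ Phi H (2 * l) := by
  have h1 : l * (H (2 * l) - H l) ≤ Phi H (2 * l) := by
    calc l * (H (2 * l) - H l) = ∑ _j ∈ range l, (H (2 * l) - H l) := by simp
      _ ≤ ∑ j ∈ range l, (H (2 * l) - H j) :=
        sum_le_sum fun j hj => Nat.sub_le_sub_left (hH (mem_range.1 hj).le) _
      _ ≤ Phi H (2 * l) := sum_le_sum_of_subset (range_subset_range.2 (by omega))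
  have h2 : H l ≤ H (2 * l) := hH (by omega)
  have h3 : ((l * (H (2 * l) - H l) : ℕ) : ℝ) ≤ Phi H (2 * l) := by exact_mod_cast h1
  rwa [Nat.cast_mul, Nat.cast_sub h2] at h3

end NUMB

theorem blk_NUMB : St_NUMB := by
  intro a s k c m C₁ η ε hk hC hη hε
  have hk0 : (0 : ℝ) < k := by exact_mod_cast hk
  have hs0 : (0 : ℝ) < (s : ℝ) + 2 := by positivity
  set κ : ℝ := (k : ℝ) / (s + 2) with hκ
  have hκ0 : 0 < κ := div_pos hk0 hs0
  obtain ⟨W0, hW0⟩ := exists_nat_ge (4 * k * C₁ / (η * (κ * ε)))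
  set W : ℕ := W0 + c + (s + 2) with hW
  have hW1 : (0 : ℝ) < W := by
    have : 0 < W := by omega
    exact_mod_cast this
  have hW2 : 4 * k * C₁ ≤ η * (κ * ε) * W := by
    have h1 : (W0 : ℝ) ≤ W := by exact_mod_cast (by omega : W0 ≤ W)
    rw [div_le_iff₀ (by positivity)] at hW0
    have h2 : (0 : ℝ) < η * (κ * ε) := by positivity
    nlinarith
  set A : ℝ := 2 * m / η + 4 * k * a / η with hA
  have hA0 : 0 ≤ A := by positivity
  set K : ℝ := A + κ * (1 + W) + 1 with hK
  have hK0 : 0 < K := by positivity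
  refine ⟨Real.exp (K / κ), Real.one_le_exp (by positivity), ?_⟩
  intro H T hT hH hb hin l hl
  by_contra hcon
  push Not at hcon
  have hT0 : 0 < T := by linarith
  have hlT : 0 ≤ Real.log T := Real.log_nonneg (by linarith)
  have hpos : 0 < Real.exp (K / κ) * T ^ (((s : ℝ) + 2) / k + ε) := by positivity
  have hl0 : (0 : ℝ) < l := hpos.trans_le hl
  have hl1 : 1 ≤ l := by exact_mod_cast hl0
  have hlog : K / κ + (((s : ℝ) + 2) / k + ε) * Real.log T ≤ Real.log l := by
    have := Real.log_le_log hpos hl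
    rwa [Real.log_mul (by positivity) (by positivity), Real.log_exp, Real.log_rpow hT0] at this
  have hlog2 : Real.log l ≤ Real.log ((2 * l : ℕ) : ℝ) :=
    Real.log_le_log hl0 (by push_cast; linarith)
  have hlog3 : K + (1 + κ * ε) * Real.log T ≤ κ * Real.log ((2 * l : ℕ) : ℝ) := by
    have h1 := mul_le_mul_of_nonneg_left (hlog.trans hlog2) hκ0.le
    have h2 : κ * (K / κ + (((s : ℝ) + 2) / k + ε) * Real.log T) =
        K + (1 + κ * ε) * Real.log T := by
      rw [hκ]; field_simp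
    rwa [h2] at h1
  set N : ℝ := (H (2 * l) : ℝ) with hN
  have hN0 : 0 ≤ N := Nat.cast_nonneg _
  have hHl : (0 : ℝ) ≤ H l := Nat.cast_nonneg _
  have hNpos : 0 < N := by
    rcases hN0.eq_or_lt with h | h
    · rw [← h] at hcon; linarith
    · exact h
  set Φ : ℝ := (Phi H (2 * l) : ℝ) with hΦ
  have hΦ1 : η * (l * N) ≤ Φ := by
    have h1 := NUMB.phi_ge H hH l
    have h2 : (l : ℝ) * (η * N) ≤ l * (N - H l) :=
      mul_le_mul_of_nonneg_left (by linarith) hl0.le
    nlinarith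
  have hΦ0 : 0 < Φ := lt_of_lt_of_le (by positivity) hΦ1
  have hlN : l * N ≤ Φ / η := by rw [le_div_iff₀ hη]; linarith
  have hlogN : Real.log N ≤ m * (2 * l) := by
    have h1 : N ≤ ((2 * l : ℝ) + 1) ^ m := by
      have := hb (2 * l)
      rw [hN]; exact_mod_cast this
    have h2 := Real.log_le_log hNpos h1
    rw [Real.log_pow] at h2
    have h3 : Real.log ((2 * l : ℝ) + 1) ≤ 2 * l := by
      have := Real.log_le_sub_one_of_pos (x := (2 * l : ℝ) + 1) (by positivity)
      linarith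
    exact h2.trans (mul_le_mul_of_nonneg_left h3 (Nat.cast_nonneg _))
  have hmain := hin (2 * l) W (by omega) (by omega) (by omega)
  rw [Real.log_rpow hT0] at hmain
  have e1 : N * Real.log N ≤ 2 * m / η * Φ := by
    calc N * Real.log N ≤ N * (m * (2 * l)) := mul_le_mul_of_nonneg_left hlogN hN0
      _ = 2 * m * (l * N) := by ring
      _ ≤ 2 * m * (Φ / η) := mul_le_mul_of_nonneg_left hlN (by positivity)
      _ = _ := by ring
  have e2 : 2 * (k : ℝ) * a * ((2 * l : ℕ) : ℝ) * N ≤ 4 * k * a / η * Φ := by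
    calc 2 * (k : ℝ) * a * ((2 * l : ℕ) : ℝ) * N = 4 * k * a * (l * N) := by push_cast; ring
      _ ≤ 4 * k * a * (Φ / η) := mul_le_mul_of_nonneg_left hlN (by positivity)
      _ = _ := by ring
  have e3 : 2 * (k : ℝ) * ((2 * l : ℕ) : ℝ) * N * (C₁ * Real.log T) / W ≤
      κ * ε * Real.log T * Φ := by
    have h1 : 4 * k * C₁ / (η * W) ≤ κ * ε := by
      rw [div_le_iff₀ (by positivity)]; linarith
    calc 2 * (k : ℝ) * ((2 * l : ℕ) : ℝ) * N * (C₁ * Real.log T) / W
        = 4 * k * C₁ * Real.log T / W * (l * N) := by push_cast; ring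
      _ ≤ 4 * k * C₁ * Real.log T / W * (Φ / η) :=
        mul_le_mul_of_nonneg_left hlN (by positivity)
      _ = 4 * k * C₁ / (η * W) * (Real.log T * Φ) := by field_simp
      _ ≤ κ * ε * (Real.log T * Φ) := mul_le_mul_of_nonneg_right h1 (by positivity)
      _ = _ := by ring
  have e4 : Φ * (κ * (Real.log ((2 * l : ℕ) : ℝ) - 1 - W)) ≤
      Φ * (A + (1 + κ * ε) * Real.log T) := by
    rw [hA]; nlinarith
  have e5 := le_of_mul_le_mul_left e4 hΦ0
  nlinarith

end Pool.Agent.NF98
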