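import Pool.Agent.Lib.NF98.Blue

namespace Pool.Agent.NF98

open MvPolynomial Finset Module NumberField

namespace ONEP

variable {ι F : Type} [Field F] {N : ℕ}

def UU (W : Submodule F (ι → F)) (col : Fin N → ι) (B : Finset (Fin N)) :
    Submodule F (Fin N → F) :=
  W.map (LinearMap.funLeft F F col) ⊔
    Submodule.span F ((fun j => (Pi.single j 1 : Fin N → F)) '' (B : Set (Fin N)))

theorem rank_le [Fintype ι] (W : Submodule F (ι → F)) (col : Fin N → ι) (B : Finset (Fin N)) :
    finrank F (UU W col B) ≤ finrank F W + B.card := by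
  classical
  refine (Submodule.finrank_add_le_finrank_add_finrank _ _).trans (add_le_add ?_ ?_)
  · exact Submodule.finrank_map_le _ _
  · rw [← coe_image]
    exact (finrank_span_finset_le_card _).trans card_image_le

theorem mono {W W' : Submodule F (ι → F)} (h : W ≤ W') (col : Fin N → ι) (B : Finset (Fin N)) :
    UU W col B ≤ UU W' col B :=
  sup_le_sup_right (Submodule.map_mono h) _

theorem mem {W : Submodule F (ι → F)} {w : ι → F} (hw : w ∈ W) (col : Fin N → ι)
    (B : Finset (Fin N)) (a : Fin N → F) (ha : ∀ j, j ∉ B → a j = w (col j)) :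
    a ∈ UU W col B := by
  have e1 : a = LinearMap.funLeft F F col w +
      ∑ j ∈ B, (a j - w (col j)) • (Pi.single j 1 : Fin N → F) := by
    funext j
    simp only [Pi.add_apply, LinearMap.funLeft_apply, Finset.sum_apply, Pi.smul_apply,
      Pi.single_apply, smul_eq_mul, mul_ite, mul_one, mul_zero, Finset.sum_ite_eq]
    split_ifs with hj
    · ring
    · rw [add_zero, ha j hj]
  rw [e1]
  refine Submodule.add_mem_sup (Submodule.mem_map_of_mem hw) ?_
  exact Submodule.sum_mem _ fun j hj => Submodule.smul_mem _ _ (Submodule.subset_span ⟨j, hj, rfl⟩)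

end ONEP

theorem blk_ONEP (h : St_RED) (h2 : St_DETP) (h3 : St_HILB) : St_ONEP := by
  intro n r δ c0 s k hR
  obtain ⟨c, hc⟩ := h n r δ c0 s k hR
  refine ⟨c, fun p hp hcp ι _ Z Δ hG N J e col => ?_⟩
  have red := hc p hp hcp Ob {x : ι // ¬(p : ℤ) ∣ Δ x} (fun x => Z x) (fun x => Δ x)
    fun x => ⟨hG x, x.2⟩
  obtain ⟨hm, -, -, -, hev⟩ := h3 ι (V n r) Fb fun x v => (Z x v : Fb)
  obtain ⟨B, hB⟩ : ∃ B : Finset (Fin N), B = univ.filter fun j => (p : ℤ) ∣ Δ (col j) := ⟨_, rfl⟩
  rw [pow_mul, ← hB]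
  refine h2 Ob Fb Subtype.val_injective N J ((p : Ob) ^ k)
    (fun t => ONEP.UU (Vs (fun x v => (Z x v : Fb)) ((n * (s + r) + 2) * p + t * ((s + 1) * p)))
      col B) _ _ (pow_ne_zero _ (Nat.cast_ne_zero.2 hp.ne_zero)) ?_ ?_ ?_
  · intro t t' htt
    exact ONEP.mono (hm (Nat.add_le_add_left (Nat.mul_le_mul_right _ htt) _)) col B
  · intro t
    exact ONEP.rank_le _ col B
  · intro i t _
    obtain ⟨u, hu, hd⟩ := red t (monomial (e i) 1)
    refine ⟨fun j => if j ∈ B then ∏ v, Z (col j) v ^ e i v else aeval (Z (col j)) u, ?_, ?_⟩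
    · refine ONEP.mem (hev _ u hu) col B _ fun j hj => ?_
      simp only [if_neg hj]
      exact (aeval_algebraMap_apply Fb (Z (col j)) u).symm
    · intro j
      simp only [Matrix.of_apply]
      split_ifs with hj
      · rw [sub_self]
        exact dvd_zero _
      · have := hd ⟨col j, fun hh => hj (hB ▸ mem_filter.2 ⟨mem_univ _, hh⟩)⟩
        rw [aeval_monomial, map_one, one_mul, Finsupp.prod_fintype _ _ (fun _ => pow_zero _),
          pow_mul] at this
        exact this

end Pool.Agent.NF98
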