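import Pool.Agent.Lib.NF98.Blue

/-! Reduction of a polynomial to small degree modulo a power of a prime. -/

namespace Pool.Agent.NF98

open MvPolynomial Finset

namespace RED

variable {n r : ℕ}

/-- substitution of the `p`-th powers of the coordinates of point `i` -/
noncomputable def psi (i : Fin n) (p : ℕ) : MvPolynomial (Fin r) (R n r) →+* R n r :=
  eval₂Hom (RingHom.id _) (fun c => X (i, c) ^ p)

/-- the exponent of the substituted monomial -/
noncomputable def ex (i : Fin n) (p : ℕ) (q : Fin r →₀ ℕ) : V n r →₀ ℕ :=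
  ∑ c, Finsupp.single (i, c) (p * q c)

lemma ex_apply (i : Fin n) (p : ℕ) (q : Fin r →₀ ℕ) (j : Fin n) (c : Fin r) :
    ex i p q (j, c) = if i = j then p * q c else 0 := by
  simp only [ex, Finsupp.coe_finsetSum, Finset.sum_apply, Finsupp.single_apply, Prod.mk.injEq]
  by_cases h : i = j
  · simp [h]
  · simp [h]

lemma ex_degree (i : Fin n) (p : ℕ) (q : Fin r →₀ ℕ) : (ex i p q).degree = p * q.degree := by
  rw [ex, map_sum, Finsupp.degree_eq_sum q, mul_sum]
  simp only [Finsupp.degree_single]

lemma psi_monomial (i : Fin n) (p : ℕ) (q : Fin r →₀ ℕ) (a : R n r) :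
    psi i p (monomial q a) = a * monomial (ex i p q) 1 := by
  rw [psi, eval₂Hom_monomial, Finsupp.prod_fintype _ _ (by simp), ex, monomial_sum_one]
  refine congrArg (a * ·) (prod_congr rfl fun c _ => ?_)
  rw [← pow_mul, X_pow_eq_monomial]

lemma deg_monomial {σ : Type} (e : σ →₀ ℕ) :
    (monomial e (1 : ℤ)).totalDegree ≤ e.degree := totalDegree_monomial_le e 1

lemma psi_deg (i : Fin n) (p c : ℕ) (h : MvPolynomial (Fin r) (R n r))
    (hc : ∀ q, (h.coeff q).totalDegree ≤ c) : (psi i p h).totalDegree ≤ c + p * h.totalDegree := by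
  conv_lhs => rw [h.as_sum, map_sum]
  refine totalDegree_finsetSum_le fun q hq => ?_
  rw [psi_monomial]
  refine (totalDegree_mul _ _).trans (add_le_add (hc q) ((deg_monomial _).trans ?_))
  rw [ex_degree]
  exact Nat.mul_le_mul_left p (le_totalDegree hq)

lemma aeval_psi {A : Type} [CommRing A] (Z : V n r → A) (i : Fin n) (p : ℕ)
    (h : MvPolynomial (Fin r) (R n r)) : aeval Z (psi i p h) =
      eval₂ (aeval Z : R n r →ₐ[ℤ] A).toRingHom (fun c => Z (i, c) ^ p) h := by
  have := map_eval₂Hom (RingHom.id (R n r)) (fun c : Fin r => (X (i, c) : R n r) ^ p)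
    (aeval Z : R n r →ₐ[ℤ] A).toRingHom h
  simpa [psi] using this

lemma exists_bound (δ : R n r) (s : ℕ) (g : (Fin r →₀ ℕ) → MvPolynomial (Fin r) (R n r)) :
    ∃ c, δ.totalDegree ≤ c ∧ ∀ q : Fin r →₀ ℕ, q.degree = s → ∀ e,
      ((g q).coeff e).totalDegree ≤ c := by
  classical
  refine ⟨max δ.totalDegree ((Finsupp.finite_of_degree_eq (σ := Fin r) s).toFinset.sup fun q =>
    (g q).support.sup fun e => ((g q).coeff e).totalDegree), le_max_left _ _, fun q hq e => ?_⟩
  refine le_trans ?_ (le_max_right _ _)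
  by_cases he : e ∈ (g q).support
  · refine le_trans ?_ (le_sup (f := fun q => (g q).support.sup
      fun e => ((g q).coeff e).totalDegree) ((Set.Finite.mem_toFinset _).2 hq))
    exact le_sup (f := fun e => ((g q).coeff e).totalDegree) he
  · rw [notMem_support_iff.1 he]
    simp

lemma exists_block {s p : ℕ} (hp : 0 < p) (e : V n r →₀ ℕ) (he : n * (s + r) * p + 1 ≤ e.degree) :
    ∃ (i : Fin n) (q : Fin r →₀ ℕ), q.degree = s ∧ ex i p q ≤ e := by
  obtain ⟨i, -, hi⟩ : ∃ i ∈ (univ : Finset (Fin n)), (s + r) * p < ∑ c, e (i, c) := by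
    refine exists_lt_of_sum_lt ?_
    rw [Finsupp.degree_eq_sum, Fintype.sum_prod_type] at he
    simp only [sum_const, card_univ, Fintype.card_fin, smul_eq_mul]
    rw [← mul_assoc]
    omega
  set f : Fin r →₀ ℕ := Finsupp.equivFunOnFinite.symm fun c => e (i, c) / p with hf
  have h1 : ∑ c, e (i, c) ≤ ∑ c, (p * f c + p) := sum_le_sum fun c _ => by
    have := Nat.div_add_mod (e (i, c)) p
    have := Nat.mod_lt (e (i, c)) hp
    simp only [hf, Finsupp.coe_equivFunOnFinite_symm]
    omega
  rw [sum_add_distrib, ← mul_sum, ← Finsupp.degree_eq_sum] at h1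
  simp only [sum_const, card_univ, Fintype.card_fin, smul_eq_mul] at h1
  have h2 : s ≤ f.degree := by
    by_contra hlt
    have : p * f.degree ≤ p * s := Nat.mul_le_mul_left p (by omega)
    nlinarith
  obtain ⟨q, hq, hq'⟩ := Finsupp.exists_le_degree_eq f s h2
  refine ⟨i, q, hq', fun v => ?_⟩
  obtain ⟨j, c⟩ := v
  rw [ex_apply]
  split_ifs with h
  · subst h
    have h3 : q c ≤ e (i, c) / p := hq c
    exact (Nat.mul_le_mul_left p h3).trans (Nat.mul_div_le _ _)
  · exact Nat.zero_le _

lemma euler {p m : ℕ} (hp : p.Prime) {D : ℤ} (hD : ¬ (p : ℤ) ∣ D) :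
    (p : ℤ) ^ m ∣ D ^ (2 * Nat.totient (p ^ m)) - 1 := by
  have h1 : Nat.Coprime D.natAbs (p ^ m) := by
    refine Nat.Coprime.pow_right m (Nat.coprime_comm.1 ((hp.coprime_iff_not_dvd).2 fun h => hD ?_))
    exact Int.natCast_dvd.2 h
  have h2 := ((Nat.ModEq.pow_totient h1).pow 2).symm
  rw [Nat.modEq_iff_dvd] at h2
  push_cast at h2
  rw [← pow_mul, mul_comm, pow_mul, sq_abs, ← pow_mul] at h2
  exact h2

end RED

open RED in
theorem blk_RED (h : St_FILT) (h2 : St_FROB) : St_RED := by
  intro n r δ c0 s k hrel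
  classical
  choose! g hg hg' using hrel
  obtain ⟨c, hc, hc'⟩ := exists_bound δ s g
  refine ⟨c, fun p hp hcp A _ ι Z Δ hZ t F => ?_⟩
  let I : ℕ → Ideal (R n r) := fun t => ⨅ x, Ideal.comap (aeval (Z x) : R n r →ₐ[ℤ] A)
    (Ideal.span {(p : A) ^ (k * t)})
  have hI : ∀ t G, G ∈ I t ↔ ∀ x, (p : A) ^ (k * t) ∣ aeval (Z x) G := by
    intro t G
    simp only [I, Ideal.mem_iInf, Ideal.mem_comap, Ideal.mem_span_singleton]
  obtain ⟨u, hu, hu'⟩ := h (V n r) ℤ δ
    {w | ∃ (i : Fin n) (q : Fin r →₀ ℕ), q.degree = s ∧ w = psi i p (C δ * monomial q 1 - g q)}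
    I (n * (s + r) * p + 1) c ((s + 1) * p) hc (by
      rintro w ⟨i, q, hq, rfl⟩
      constructor
      · rw [map_sub, C_mul_monomial, mul_one, psi_monomial]
        refine (totalDegree_sub _ _).trans (max_le ?_ ?_)
        · refine (totalDegree_mul _ _).trans ?_
          have := deg_monomial (ex i p q)
          rw [ex_degree, hq] at this
          nlinarith
        · have e1 := psi_deg i p c (g q) (hc' q hq)
          have e2 := hg q hq
          have e3 : p * (g q).totalDegree ≤ p * s := Nat.mul_le_mul_left p e2.le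
          nlinarith
      · rw [hI]
        intro x
        rw [aeval_psi, mul_one]
        exact h2 n r δ c0 A (Z x) (Δ x) p hp (hZ x).1 (hZ x).2 k _ (hg' q hq) i)
    (by
      intro t
      rw [Ideal.mul_le]
      intro a ha b hb
      rw [hI] at ha hb ⊢
      intro x
      rw [map_mul, show k * (t + 1) = k * 1 + k * t by ring, pow_add]
      exact mul_dvd_mul (ha x) (hb x))
    (by
      intro t
      refine ⟨2 * Nat.totient (p ^ (k * t)), ?_, (hI _ _).2 fun x => ?_⟩
      · have := Nat.totient_pos.2 (pow_pos hp.pos (k * t))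
        omega
      · have := map_dvd (Int.castRingHom A) (euler (m := k * t) hp (hZ x).2)
        rw [map_sub, map_pow, map_one, (hZ x).1.val]
        simpa using this)
    (by
      intro e he
      obtain ⟨i, q, hq, hle⟩ := exists_block hp.pos e he
      obtain ⟨e', rfl⟩ := exists_add_of_le hle
      refine ⟨monomial e' 1 * psi i p (g q), ?_, ?_⟩
      · have e1 := psi_deg i p c (g q) (hc' q hq)
        have e2 := hg q hq
        have e3 : p * ((g q).totalDegree + 1) ≤ p * s := Nat.mul_le_mul_left p e2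
        have e4 := deg_monomial e'
        have e5 := totalDegree_mul (monomial e' (1 : ℤ)) (psi i p (g q))
        rw [map_add, ex_degree, hq]
        nlinarith
      · have : δ * monomial (ex i p q + e') 1 - monomial e' 1 * psi i p (g q)
            = monomial e' 1 * psi i p (C δ * monomial q 1 - g q) := by
          rw [map_sub, C_mul_monomial, mul_one, psi_monomial, ← mul_one (1 : ℤ), ← monomial_mul,
            mul_one]
          ring
        rw [this]
        exact Ideal.mul_mem_left _ _ (Ideal.subset_span ⟨i, q, hq, rfl⟩))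
    t F
  refine ⟨u, hu.trans (by nlinarith), fun x => ?_⟩
  rw [← map_sub]
  exact (hI _ _).1 hu' x

end Pool.Agent.NF98
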