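import Pool.Agent.Lib.NF98.Blue

namespace Pool.Agent.NF98

open MvPolynomial Finset Module

namespace GRID

noncomputable def bb (n r k : ℕ) : Ideal (MvPolynomial (Fin r) (R n r)) := ∏ j : Fin n, dI j ^ k

lemma fg_top (n r k : ℕ) :
    (⊤ : Submodule (R n r) (MvPolynomial (Fin r) (R n r) ⧸ bb n r k)).FG := by
  let π := Ideal.Quotient.mkₐ (R n r) (bb n r k)
  have h1 : Algebra.adjoin (R n r) (Set.range fun c : Fin r => π (X c)) = ⊤ := by
    have : (Set.range fun c : Fin r => π (X c)) = π '' Set.range X := by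
      rw [← Set.range_comp]; rfl
    rw [this, ← AlgHom.map_adjoin, adjoin_range_X, Algebra.map_top, AlgHom.range_eq_top]
    exact Ideal.Quotient.mkₐ_surjective _ _
  have h2 := fg_adjoin_of_finite (R := R n r) (Set.finite_range fun c : Fin r => π (X c)) (by
    rintro _ ⟨c, rfl⟩
    refine ⟨∏ j : Fin n, (Polynomial.X - Polynomial.C (X (j, c))) ^ k,
      Polynomial.monic_prod_of_monic _ _ fun j _ => (Polynomial.monic_X_sub_C _).pow k, ?_⟩
    rw [← Polynomial.aeval_def, Polynomial.aeval_algHom_apply]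
    refine Ideal.Quotient.eq_zero_iff_mem.2 ?_
    simp only [map_prod, map_pow, map_sub, Polynomial.aeval_X, Polynomial.aeval_C, algebraMap_eq]
    exact Ideal.prod_mem_prod fun j _ =>
      Ideal.pow_mem_pow (Ideal.subset_span (Set.mem_range_self c)) k)
  rwa [h1] at h2

lemma lift {σ A B : Type} [CommRing A] [CommRing B] (φ : A →+* B) (hφ : Function.Surjective φ)
    (u : MvPolynomial σ B) :
    ∃ v : MvPolynomial σ A, v.totalDegree ≤ u.totalDegree ∧ map φ v = u := by
  choose sec hsec using hφ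
  refine ⟨∑ d ∈ u.support, monomial d (sec (coeff d u)), ?_, ?_⟩
  · exact totalDegree_finsetSum_le fun d hd =>
      (totalDegree_monomial_le _ _).trans (le_totalDegree hd)
  · simp only [map_sum, map_monomial, hsec]
    exact u.as_sum.symm

end GRID

open GRID in
theorem blk_GRID (_h : St_FILT) (h2 : St_GRIDF) : St_GRID := by
  intro n r b k hn hb hk
  obtain ⟨l, hbl, hl⟩ := Nat.exists_infinite_primes b
  have : Fact l.Prime := ⟨hl⟩
  let g : Fin b → ZMod l := fun i => ((i : ℕ) : ZMod l)
  have hg : Function.Injective g := fun i j hij => by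
    have := congrArg ZMod.val hij
    simp only [g] at this
    rw [ZMod.val_cast_of_lt (i.2.trans_le hbl), ZMod.val_cast_of_lt (j.2.trans_le hbl)] at this
    exact Fin.ext this
  obtain ⟨P⟩ : Nonempty (Fin n ↪ (Fin r → Fin b)) :=
    Function.Embedding.nonempty_of_card_le (by simpa using hn)
  let φ : R n r →+* ZMod l := eval₂Hom (Int.castRingHom _) fun v => g (P v.1 v.2)
  have hφ : Function.Surjective φ := ZMod.ringHom_surjective φ
  let π := Ideal.Quotient.mkₐ (R n r) (bb n r k)
  have hmap : Ideal.map (map φ : MvPolynomial (Fin r) (R n r) →+* _) (bb n r k) =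
      ∏ j : Fin n, (Ideal.span (Set.range fun c : Fin r =>
        (X c - C (g (P j c)) : MvPolynomial (Fin r) (ZMod l)))) ^ k := by
    rw [bb, ← Ideal.mapHom_apply, map_prod]
    refine prod_congr rfl fun j _ => ?_
    rw [map_pow, Ideal.mapHom_apply, dI, Ideal.map_span, ← Set.range_comp]
    congr 3
    funext c
    simp [φ]
  obtain ⟨δ, h1, h3⟩ := Submodule.exists_sub_one_mem_and_smul_le_of_fg_of_le_sup
    (I := RingHom.ker φ) (N := (restrictTotalDegree (Fin r) (R n r) (b * k + r * b)).map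
      π.toLinearMap) (P := ⊤) (fg_top n r k) le_rfl (by
    intro x _
    obtain ⟨F, rfl⟩ := Ideal.Quotient.mkₐ_surjective (R n r) (bb n r k) x
    obtain ⟨u, hu, hu'⟩ := h2 n r b k (ZMod l) g P hb hk hg P.injective (map φ F)
    obtain ⟨v, hv, rfl⟩ := lift φ hφ u
    rw [← hmap, Ideal.mem_map_iff_of_surjective _ (map_surjective φ hφ)] at hu'
    obtain ⟨w, hw, hw'⟩ := hu'
    have h4 : F - v - w ∈ RingHom.ker (map φ : MvPolynomial (Fin r) (R n r) →+* _) := by
      rw [RingHom.mem_ker, map_sub, map_sub, hw', sub_self]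
    rw [ker_map] at h4
    have h5 : π F = π v + π (F - v - w) := by
      have : π w = 0 := Ideal.Quotient.eq_zero_iff_mem.2 hw
      simp only [map_sub, this]; ring
    change π F ∈ _
    rw [h5]
    refine Submodule.add_mem_sup ⟨v, (mem_restrictTotalDegree _ _ _).2 (by omega), rfl⟩ ?_
    have := Ideal.mem_map_of_mem (Ideal.Quotient.mk (bb n r k)) h4
    rw [Ideal.map_map] at this
    exact (Ideal.smul_top_eq_map (S := MvPolynomial (Fin r) (R n r) ⧸ bb n r k)
      (RingHom.ker φ)).ge this)
  refine ⟨δ, fun h0 => ?_, fun q _ => ?_⟩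
  · rw [h0, RingHom.mem_ker] at h1
    simp at h1
  · obtain ⟨v, hv, hv'⟩ := h3 (Submodule.smul_mem_pointwise_smul (π (monomial q 1)) δ ⊤ trivial)
    refine ⟨v, Nat.lt_succ_of_le ((mem_restrictTotalDegree _ _ _).1 hv), fun j => ?_⟩
    have h4 : C δ * monomial q 1 - v ∈ bb n r k := by
      rw [← Ideal.Quotient.eq, ← smul_eq_C_mul]
      exact ((map_smul π δ _).trans hv'.symm)
    exact (Ideal.prod_le_inf.trans (Finset.inf_le (mem_univ j))) h4

end Pool.Agent.NF98
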