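import Pool.Agent.Lib.NF98.Blue

/-! Block GRIDF: jets at the points of a grid over a field. -/

namespace Pool.Agent.NF98

open MvPolynomial Finset

namespace GRIDF

variable {σ A : Type} [Field A]

theorem deg_aeval (c : σ) (q : Polynomial A) :
    (Polynomial.aeval (X c : MvPolynomial σ A) q).totalDegree ≤ q.natDegree := by
  rw [Polynomial.aeval_eq_sum_range]
  refine totalDegree_finsetSum_le fun i hi => (totalDegree_smul_le _ _).trans ?_
  rw [totalDegree_X_pow]
  exact Nat.lt_succ_iff.mp (mem_range.mp hi)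

theorem deg_lt {b : ℕ} (hb : 1 ≤ b) (g : Fin b → A) (c : σ) :
    (X c ^ b - ∏ t, (X c - C (g t)) : MvPolynomial σ A).totalDegree < b := by
  have h1 : (∏ t, (Polynomial.X - Polynomial.C (g t))).Monic :=
    Polynomial.monic_prod_X_sub_C g univ
  have h2 : (∏ t, (Polynomial.X - Polynomial.C (g t))).degree = (b : WithBot ℕ) := by
    rw [Polynomial.degree_prod]
    simp
  have h3 := Polynomial.degree_sub_lt_left ((Polynomial.degree_X_pow b).trans h2.symm)
    (Polynomial.monic_X_pow b).ne_zero ((Polynomial.monic_X_pow b).leadingCoeff.trans h1.symm)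
  rw [Polynomial.degree_X_pow] at h3
  have h4 := deg_aeval c (Polynomial.X ^ b - ∏ t, (Polynomial.X - Polynomial.C (g t)))
  simp only [map_sub, map_pow, map_prod, Polynomial.aeval_X, Polynomial.aeval_C,
    algebraMap_eq] at h4
  refine h4.trans_lt ?_
  by_cases h : Polynomial.X ^ b - ∏ t, (Polynomial.X - Polynomial.C (g t)) = 0
  · rw [h]
    exact hb
  · exact (Polynomial.natDegree_lt_iff_degree_lt h).mpr h3

theorem deg_le {b : ℕ} (hb : 1 ≤ b) (g : Fin b → A) (c : σ) :
    (∏ t, (X c - C (g t)) : MvPolynomial σ A).totalDegree ≤ b := by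
  rw [← sub_sub_cancel (X c ^ b) (∏ t, (X c - C (g t)) : MvPolynomial σ A)]
  exact (totalDegree_sub _ _).trans (max_le (totalDegree_X_pow c b).le (deg_lt hb g c).le)

end GRIDF

open GRIDF in
theorem blk_GRIDF (h : St_FILT) : St_GRIDF := by
  intro n r b k A _ g P hb hk hg hP F
  obtain ⟨γ, hγ⟩ : ∃ γ : Fin r → MvPolynomial (Fin r) A, γ = fun c => ∏ t, (X c - C (g t)) :=
    ⟨_, rfl⟩
  obtain ⟨u, h1, h2⟩ := h (Fin r) A 1 (Set.range γ) (fun t => Ideal.span (Set.range γ) ^ t)
    (r * b + 1) 0 b totalDegree_one.le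
    (fun f hf => ⟨by obtain ⟨c, rfl⟩ := hf; exact hγ ▸ deg_le hb g c,
      by rw [pow_one]; exact Ideal.subset_span hf⟩)
    (fun t => by rw [pow_one, pow_succ']) (fun t => ⟨1, le_rfl, by simp⟩)
    (fun e he => by
      obtain ⟨c, hc⟩ : ∃ c, b ≤ e c := by
        by_contra h0
        push Not at h0
        have := sum_le_card_nsmul univ (fun c => e c) b fun c _ => (h0 c).le
        rw [Finsupp.degree_eq_sum] at he
        simp only [card_univ, Fintype.card_fin, smul_eq_mul] at this
        omega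
      have h3 : e - Finsupp.single c b + Finsupp.single c b = e :=
        tsub_add_cancel_of_le (Finsupp.single_le_iff.mpr hc)
      refine ⟨monomial (e - Finsupp.single c b) 1 * (X c ^ b - γ c), ?_, ?_⟩
      · have h4 := congrArg Finsupp.degree h3
        rw [map_add, Finsupp.degree_single] at h4
        have h5 := deg_lt hb g c
        refine (totalDegree_mul _ _).trans_lt ?_
        rw [totalDegree_monomial _ one_ne_zero, hγ, ← h4]
        exact Nat.add_lt_add_left h5 _
      · rw [one_mul, mul_sub, X_pow_eq_monomial, monomial_mul, h3, one_mul, sub_sub_cancel]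
        exact Ideal.mul_mem_left _ _ (Ideal.subset_span ⟨c, rfl⟩))
    (k - 1) F
  refine ⟨u, h1.trans_lt ?_, ?_⟩
  · obtain ⟨k, rfl⟩ := Nat.exists_eq_add_of_le' hk
    simp only [add_tsub_cancel_right]
    nlinarith
  rw [tsub_add_cancel_of_le hk] at h2
  rw [prod_pow]
  refine Ideal.pow_right_mono ?_ k h2
  rw [Ideal.prod_eq_iInf_of_pairwise_isCoprime]
  · refine le_iInf₂ fun j _ => Ideal.span_le.mpr ?_
    rintro _ ⟨c, rfl⟩
    rw [hγ]
    exact Ideal.mem_of_dvd _ (dvd_prod_of_mem _ (mem_univ (P j c))) (Ideal.subset_span ⟨c, rfl⟩)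
  · intro j _ l _ hjl
    obtain ⟨c, hc⟩ := Function.ne_iff.mp (hP.ne hjl)
    refine Ideal.isCoprime_iff_sup_eq.mpr (Ideal.eq_top_of_isUnit_mem _
      (Ideal.sub_mem _ (Ideal.mem_sup_left (Ideal.subset_span ⟨c, rfl⟩))
        (Ideal.mem_sup_right (Ideal.subset_span ⟨c, rfl⟩))) ?_)
    rw [sub_sub_sub_cancel_left, ← map_sub]
    exact (sub_ne_zero.mpr (hg.ne hc.symm)).isUnit.map C

end Pool.Agent.NF98
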