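import Pool.Agent.Lib.NF98.Blue

/-! A nonzero polynomial has many non-roots in a box. -/

namespace Pool.Agent.NF98

open MvPolynomial Finset

theorem blk_BOX : St_BOX := by
  classical
  intro τ F _ _ _ Ψ M d hΨ hd
  have hex : ∀ a : τ → ℕ, ∃ t : τ → ℕ, (∀ v, t v / (d + 1) = a v) ∧
      eval (fun v => (t v : F)) Ψ ≠ 0 := by
    intro a
    by_contra hcon
    push Not at hcon
    apply hΨ
    refine eq_zero_of_eval_zero_at_prod_finset Ψ
      (fun v => (range (d + 1)).image fun j => (((d + 1) * a v + j : ℕ) : F)) (fun v => ?_) ?_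
    · rw [card_image_of_injective _ (fun i j h => by simpa using h), card_range]
      exact Nat.lt_succ_of_le ((degreeOf_le_totalDegree Ψ v).trans hd)
    · intro x hx
      have : ∀ v, ∃ j, j < d + 1 ∧ (((d + 1) * a v + j : ℕ) : F) = x v := fun v => by
        simpa only [mem_image, mem_range] using hx v
      choose j hj1 hj2 using this
      have h := hcon (fun v => (d + 1) * a v + j v) (fun v => by
        rw [Nat.mul_add_div (Nat.succ_pos d), Nat.div_eq_of_lt (hj1 v), add_zero])
      rwa [show (fun v => (((d + 1) * a v + j v : ℕ) : F)) = x from funext hj2] at h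
  choose t ht1 ht2 using hex
  have hinj : Function.Injective t := fun a a' h => funext fun v => by
    rw [← ht1 a v, ← ht1 a' v, h]
  refine ⟨(Fintype.piFinset fun v => range (M v)).image t, ?_, ?_⟩
  · rw [card_image_of_injective _ hinj, Fintype.card_piFinset]
    simp
  · intro u hu
    obtain ⟨a, ha, rfl⟩ := mem_image.1 hu
    refine ⟨fun v => ?_, ht2 a⟩
    have h1 := mem_range.1 (Fintype.mem_piFinset.1 ha v)
    rw [← ht1 a v, Nat.div_lt_iff_lt_mul (Nat.succ_pos d)] at h1
    rwa [mul_comm]

end Pool.Agent.NF98
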