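import Pool.Agent.Lib.NF98.Blue

namespace Pool.Agent.NF98

open MvPolynomial Finset Module NumberField
open scoped IntermediateField

namespace EMB

/-- composition with an automorphism permutes the embeddings -/
noncomputable def post {K : Type} [Field K] [NumberField K] (τ : Fb ≃ₐ[ℚ] Fb) :
    Equiv.Perm (K →ₐ[ℚ] Fb) where
  toFun φ := (τ : Fb →ₐ[ℚ] Fb).comp φ
  invFun φ := (τ.symm : Fb →ₐ[ℚ] Fb).comp φ
  left_inv φ := by ext x; simp
  right_inv φ := by ext x; simp

theorem pt_coe {n r : ℕ} {K : Type} [Field K] [NumberField K] (σ : Fin n ≃ (K →ₐ[ℚ] Fb))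
    (y : Fin r → 𝓞 K) (v : V n r) : (pt σ y v : Fb) = σ v.1 (y v.2 : K) := rfl

end EMB

open EMB in
theorem blk_EMB : St_EMB := by
  intro n r K _ _ σ
  refine ⟨fun y τ => ⟨σ.trans ((post τ).trans σ.symm), fun i c => ?_⟩, fun y T h φ v => ?_,
    fun y y' h => ?_, fun y i0 c0 h => ?_⟩
  · simp [pt_coe, post]
  · exact (norm_embedding_le_house (y v.2 : K) (φ.comp (σ v.1).toRingHom)).trans (h v.2)
  · funext c
    have i : Fin n := σ.symm IsAlgClosed.lift
    have h1 := congrArg (fun Z : V n r → Ob => (Z (i, c) : Fb)) h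
    simp only [pt_coe] at h1
    exact RingOfIntegers.ext ((σ i).injective h1)
  · have h1 : ℚ⟮(y c0 : K)⟯ = ⊤ := by
      rw [Field.primitive_element_iff_algHom_eq_of_eval' ℚ Fb fun _ => IsAlgClosed.splits _]
      intro φ ψ e
      by_contra hne
      refine h (σ.symm φ) (σ.symm ψ) (fun e2 => hne (σ.symm.injective e2)) (Subtype.ext ?_)
      simpa [pt_coe] using e
    have h2 : (σ i0).fieldRange = ℚ⟮(pt σ y (i0, c0) : Fb)⟯ := by
      rw [AlgHom.fieldRange_eq_map, ← h1, IntermediateField.adjoin_map, Set.image_singleton]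
      rfl
    rw [← h2]
    exact ⟨(AlgEquiv.ofInjectiveField (σ i0)).toRingEquiv⟩

end Pool.Agent.NF98
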