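import Pool.Agent.Lib.NF98.Blue

/-! Block FIELD: many good points from one field. -/

namespace Pool.Agent.NF98

open MvPolynomial Finset Module NumberField
open scoped IntermediateField

namespace FIELD

variable {n r : ℕ} {K : Type} [Field K] [NumberField K]

/-- integer combinations -/
noncomputable def comb (ω : Fin n → 𝓞 K) (t : Fin r × Fin n → ℕ) : Fin r → 𝓞 K :=
  fun c => ∑ l, (t (c, l) : 𝓞 K) * ω l

omit [NumberField K] in
lemma comb_coe (ω : Fin n → 𝓞 K) (t : Fin r × Fin n → ℕ) (c : Fin r) :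
    ((comb ω t c : 𝓞 K) : K) = ∑ l, (t (c, l) : K) * (ω l : K) := by
  simp [comb]

lemma comb_inj {ω : Fin n → 𝓞 K} (h : LinearIndependent ℚ (fun i => (ω i : K))) :
    Function.Injective (comb (r := r) ω) := by
  intro t t' e
  funext ⟨c, l⟩
  have e1 : ∑ l, (t (c, l) : ℚ) • (ω l : K) = ∑ l, (t' (c, l) : ℚ) • (ω l : K) := by
    have := congrArg (fun y : Fin r → 𝓞 K => (y c : K)) e
    simp only [comb_coe] at this
    simpa [Nat.cast_smul_eq_nsmul] using this
  have := Fintype.linearIndependent_iffₛ.1 h _ _ e1 l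
  exact_mod_cast this

lemma house_comb {ω : Fin n → 𝓞 K} {T : ℝ} {d : ℕ} (h1 : ∀ i, 0 < house (ω i : K))
    (hT : ∀ i, house (ω i : K) ≤ T) {t : Fin r × Fin n → ℕ}
    (ht : ∀ v, t v < (d + 1) * ⌈T / house (ω v.2 : K)⌉₊) (c : Fin r) :
    house ((comb ω t c : 𝓞 K) : K) ≤ 2 * n * (d + 1) * T := by
  rw [comb_coe]
  refine (house_sum_le_sum_house _ _).trans ?_
  have : ∀ l ∈ (univ : Finset (Fin n)), house ((t (c, l) : K) * (ω l : K)) ≤ 2 * (d + 1) * T := by
    intro l _
    rw [house_nat_mul]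
    have a0 := h1 l
    have a1 : 1 ≤ T / house (ω l : K) := (one_le_div a0).2 (hT l)
    have a2 : (⌈T / house (ω l : K)⌉₊ : ℝ) ≤ 2 * (T / house (ω l : K)) := by
      have := Nat.ceil_lt_add_one (zero_le_one.trans a1)
      linarith
    have a3 : (t (c, l) : ℝ) ≤ (d + 1) * (⌈T / house (ω l : K)⌉₊ : ℝ) := by
      exact_mod_cast (ht (c, l)).le
    calc (t (c, l) : ℝ) * house (ω l : K)
        ≤ (d + 1) * (2 * (T / house (ω l : K))) * house (ω l : K) := by
          gcongr
          exact a3.trans (by gcongr)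
      _ = 2 * (d + 1) * T := by field_simp
  refine (sum_le_card_nsmul _ _ _ this).trans (le_of_eq ?_)
  simp only [card_univ, Fintype.card_fin, nsmul_eq_mul]
  ring

end FIELD

open FIELD in
theorem blk_FIELD (h : St_BOX) (h2 : St_EMB) (h3 : St_LIN) : St_FIELD := by
  classical
  intro n r i0 c0 δ hδ hd
  refine ⟨2 * n * (δ.totalDegree + 1) + 1, le_add_of_nonneg_left (by positivity), ?_⟩
  intro K _ _ hK ω T hli hT
  have σ : Fin n ≃ (K →ₐ[ℚ] Fb) :=
    (Fintype.equivFinOfCardEq ((AlgHom.card ℚ K Fb).trans hK)).symm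
  have hpos : ∀ i, 0 < house (ω i : K) := fun i =>
    zero_lt_one.trans_le (one_le_house_of_isIntegral (RingOfIntegers.isIntegral_coe _)
      (hli.ne_zero i))
  have hT0 : 0 < T := (hpos i0).trans_le (hT i0)
  obtain ⟨Ψ, p1, p2, p3⟩ := h3 n r K σ ω δ hli hδ
  obtain ⟨S, s1, s2⟩ := h (Fin r × Fin n) Fb Ψ (fun v => ⌈T / house (ω v.2 : K)⌉₊) _ p1 p2
  obtain ⟨e1, e2, e3, e4⟩ := h2 n r K σ
  refine ⟨S.image fun t => pt σ (comb ω t), ?_, ?_⟩
  · have hi : Function.Injective fun t : Fin r × Fin n → ℕ => pt σ (comb ω t) :=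
      e3.comp (comb_inj hli)
    rw [card_image_of_injective _ hi]
    refine le_trans ?_ (Nat.cast_le.2 s1)
    rw [Nat.cast_prod, Fintype.prod_prod_type]
    simp only [prod_const, card_univ, Fintype.card_fin]
    have a1 : T ^ n / ∏ i, house (ω i : K) = ∏ i, T / house (ω i : K) := by
      rw [prod_div_distrib, prod_const, card_univ, Fintype.card_fin]
    rw [a1]
    refine pow_le_pow_left₀ (prod_nonneg fun i _ => (div_pos hT0 (hpos i)).le) ?_ _
    exact prod_le_prod (fun i _ => (div_pos hT0 (hpos i)).le) fun i _ => Nat.le_ceil _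
  · intro Z hZ
    obtain ⟨t, ht, rfl⟩ := mem_image.1 hZ
    obtain ⟨t1, t2⟩ := s2 t ht
    have hne : aeval (pt σ (comb ω t)) δ ≠ 0 := by
      intro h0
      apply t2
      rw [p3]
      exact congrArg (fun x : Ob => (x : Fb)) h0
    refine ⟨e1 _, e2 _ _ fun c => (house_comb hpos hT t1 c).trans (by nlinarith), hne,
      e4 _ i0 c0 fun i j hij he => hne ?_⟩
    obtain ⟨q, hq⟩ := hd i j hij
    rw [hq, map_mul, map_sub, aeval_X, aeval_X, he, sub_self, zero_mul]

end Pool.Agent.NF98
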