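import Pool.Agent.Lib.NF98.Blue

namespace Pool.Agent.NF98

open MvPolynomial Finset Module NumberField

namespace LIN

lemma deg_aeval {σ τ F : Type} [CommRing F] (f : σ → MvPolynomial τ F)
    (hf : ∀ v, (f v).totalDegree ≤ 1) (δ : MvPolynomial σ ℤ) :
    (aeval f δ).totalDegree ≤ δ.totalDegree := by
  rw [aeval_def, eval₂_eq]
  refine totalDegree_finsetSum_le fun e he => ?_
  refine (totalDegree_mul _ _).trans ?_
  have h0 : (algebraMap ℤ (MvPolynomial τ F) (coeff e δ)).totalDegree = 0 := by
    rw [IsScalarTower.algebraMap_apply ℤ F, algebraMap_eq, totalDegree_C]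
  rw [h0, zero_add]
  refine (totalDegree_finsetProd _ _).trans (le_trans ?_ (le_totalDegree he))
  refine Finset.sum_le_sum fun v _ => (totalDegree_pow _ _).trans ?_
  exact (Nat.mul_le_mul_left _ (hf v)).trans_eq (mul_one _)

lemma surj {n : ℕ} {K : Type} [Field K] [NumberField K] (σ : Fin n ≃ (K →ₐ[ℚ] Fb))
    (ω : Fin n → K) (hω : LinearIndependent ℚ ω) (z : Fin n → Fb) :
    ∃ x : Fin n → Fb, ∀ i, ∑ l, σ i (ω l) * x l = z i := by
  have hc : Fintype.card (Fin n) = finrank ℚ K := by
    rw [Fintype.card_congr σ, AlgHom.card]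
  have hsp := hω.span_eq_top_of_card_eq_finrank' hc
  let A : Matrix (Fin n) (Fin n) Fb := Matrix.of fun i l => σ i (ω l)
  have hA : LinearIndependent Fb A.row := by
    have h1 := (linearIndependent_toLinearMap ℚ K Fb).comp σ σ.injective
    rw [Fintype.linearIndependent_iff] at h1 ⊢
    intro g hg
    refine h1 g (LinearMap.ext_on_range hsp fun l => ?_)
    simpa [A, Matrix.row] using congrFun hg l
  obtain ⟨x, hx⟩ := Matrix.mulVec_surjective_iff_isUnit.2
    (Matrix.linearIndependent_rows_iff_isUnit.1 hA) z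
  exact ⟨x, fun i => congrFun hx i⟩

end LIN

theorem blk_LIN : St_LIN := by
  intro n r K _ _ σ ω δ hω hδ
  let f : V n r → MvPolynomial (Fin r × Fin n) Fb :=
    fun v => ∑ l, C (σ v.1 (ω l : K)) * X (v.2, l)
  have hev : ∀ x : Fin r × Fin n → Fb, eval x (aeval f δ) =
      aeval (fun v : V n r => ∑ l, σ v.1 (ω l : K) * x (v.2, l)) δ := by
    intro x
    have h := DFunLike.congr_fun (comp_aeval f (eval x).toIntAlgHom) δ
    refine h.trans ?_
    congr 2
    funext v
    simp [f]
  refine ⟨aeval f δ, fun h0 => hδ ?_, LIN.deg_aeval f (fun v => ?_) δ, fun t => ?_⟩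
  · apply map_injective (algebraMap ℤ Fb) (algebraMap ℤ Fb).injective_int
    refine MvPolynomial.funext fun z => ?_
    choose x hx using fun c : Fin r => LIN.surj σ _ hω fun i => z (i, c)
    have h1 := hev fun v => x v.1 v.2
    rw [h0, map_zero] at h1
    simp only [hx] at h1
    rw [map_zero, map_zero, eval_map, ← aeval_def]
    exact h1.symm
  · refine totalDegree_finsetSum_le fun l _ => (totalDegree_mul _ _).trans ?_
    rw [totalDegree_C, totalDegree_X, zero_add]
  · rw [hev]
    have h := DFunLike.congr_fun (comp_aeval (pt σ fun c => ∑ l, (t (c, l) : 𝓞 K) * ω l)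
      (integralClosure ℤ Fb).val) δ
    refine Eq.trans ?_ h.symm
    congr 2
    funext v
    simp [pt, mul_comm]

end Pool.Agent.NF98
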