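import Pool.Agent.Lib.NF98.Blue

/-! From the count of points to the count of fields. -/

namespace Pool.Agent.NF98

open MvPolynomial Finset Module NumberField
open scoped IntermediateField

namespace MAIN

lemma one_le_house {K : Type} [Field K] [NumberField K] {x : 𝓞 K} (hx : (x : K) ≠ 0) :
    1 ≤ house (x : K) :=
  one_le_house_of_isIntegral (RingOfIntegers.isIntegral_coe x) hx

lemma field_data (hS : St_SUCC) (hP : St_PROD) (hT : St_TOP) (n : ℕ) (hn : 2 ≤ n) (D : ℕ)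
    (K : Type) [Field K] [NumberField K] (hK : finrank ℚ K = n) (hD : (discr K).natAbs ≤ D) :
    ∃ ω : Fin n → 𝓞 K, LinearIndependent ℚ (fun i => (ω i : K)) ∧
      (∀ i, house (ω i : K) ≤ (n : ℝ) ^ 2 * (D : ℝ) ^ ((n : ℝ)⁻¹)) ∧
      0 < ∏ i, house (ω i : K) ∧ ∏ i, house (ω i : K) ≤ (n : ℝ) ^ n * √(D : ℝ) := by
  obtain ⟨ω, hω⟩ := hS n K hK
  have hd : |(discr K : ℝ)| ≤ D := by
    rw [← Int.cast_abs, ← Nat.cast_natAbs]
    exact_mod_cast hD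
  have hp : ∏ i, house (ω i : K) ≤ (n : ℝ) ^ n * √(D : ℝ) :=
    (hP n K hK ω hω).trans (mul_le_mul_of_nonneg_left (Real.sqrt_le_sqrt hd) (by positivity))
  have hpos : 0 < ∏ i, house (ω i : K) :=
    prod_pos fun i _ => lt_of_lt_of_le one_pos (one_le_house (hω.1.ne_zero i))
  refine ⟨ω, hω.1, fun i => ?_, hpos, hp⟩
  have h1 := (hT n K hK ω hω i).trans (pow_le_pow_left₀ hpos.le hp 2)
  have hn0 : n ≠ 0 := by omega
  refine le_of_pow_le_pow_left₀ hn0 (by positivity) (h1.trans (le_of_eq ?_))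
  rw [mul_pow, mul_pow, Real.sq_sqrt (Nat.cast_nonneg D), Real.rpow_inv_natCast_pow
    (Nat.cast_nonneg D) hn0, ← pow_mul, ← pow_mul, mul_comm n 2]

end MAIN

theorem blk_MAIN (hC : St_COUNT) (hS : St_SUCC) (hP : St_PROD) (hT : St_TOP) (hF : St_FIELD) :
    St_MAIN := by
  classical
  intro n r b hn hb ε hε
  have hr : 0 < r := by
    rcases Nat.eq_zero_or_pos r with rfl | h
    · simp at hb; omega
    · exact h
  have hb1 : 1 ≤ b := by
    rcases Nat.eq_zero_or_pos b with rfl | h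
    · rw [zero_pow hr.ne'] at hb; omega
    · exact h
  obtain ⟨δ, hδ, hdif, C, hC1, hc⟩ := hC n r b ⟨0, hr⟩ ε hb hb1 hε
  obtain ⟨C', hC', hf⟩ := hF n r ⟨0, by omega⟩ ⟨0, hr⟩ δ hδ hdif
  set y : ℝ := (b * r * n : ℕ) + ε with hy
  refine ⟨C * (C' * (n : ℝ) ^ 2) ^ y, ?_⟩
  intro D hD m K _ _ hK hdisc hiso
  have hD1 : (1 : ℝ) ≤ D := by exact_mod_cast hD
  have hD0 : (0 : ℝ) < D := by linarith
  have hn2 : (2 : ℝ) ≤ n := by exact_mod_cast hn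
  have hn0 : n ≠ 0 := by omega
  set T : ℝ := (n : ℝ) ^ 2 * (D : ℝ) ^ ((n : ℝ)⁻¹) with hT0
  have hDn : (1 : ℝ) ≤ (D : ℝ) ^ ((n : ℝ)⁻¹) := Real.one_le_rpow hD1 (by positivity)
  have hT2 : 2 ≤ T := by nlinarith
  have hex : ∀ i, ∃ S : Finset (V n r → Ob), (√(D : ℝ)) ^ r ≤ S.card ∧
      ∀ Z ∈ S, Stab Z ∧ Bdd (C' * T) Z ∧ aeval Z δ ≠ 0 ∧
        Nonempty (K i ≃+* ℚ⟮(Z (⟨0, by omega⟩, ⟨0, hr⟩) : Fb)⟯) := by
    intro i
    obtain ⟨ω, h1, h2, h3, h4⟩ := MAIN.field_data hS hP hT n hn D (K i) (hK i) (hdisc i)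
    obtain ⟨S, h5, h6⟩ := hf (K i) (hK i) ω T h1 h2
    refine ⟨S, le_trans (pow_le_pow_left₀ (Real.sqrt_nonneg _) ?_ r) h5, h6⟩
    rw [le_div_iff₀ h3]
    have hnn : (1 : ℝ) ≤ (n : ℝ) ^ n := one_le_pow₀ (by linarith)
    calc √(D : ℝ) * ∏ j, house (ω j : K i) ≤ √(D : ℝ) * ((n : ℝ) ^ n * √(D : ℝ)) :=
          mul_le_mul_of_nonneg_left h4 (Real.sqrt_nonneg _)
      _ = (n : ℝ) ^ n * D := by
          rw [mul_left_comm, Real.mul_self_sqrt hD0.le]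
      _ ≤ (n : ℝ) ^ n * (n : ℝ) ^ n * D := by
          refine mul_le_mul_of_nonneg_right ?_ hD0.le
          nlinarith
      _ = T ^ n := by
          rw [hT0, mul_pow, Real.rpow_inv_natCast_pow hD0.le hn0, ← pow_mul, two_mul, pow_add]
  choose S hS1 hS2 using hex
  have hdisj : ((univ : Finset (Fin m)) : Set (Fin m)).PairwiseDisjoint S := by
    intro i _ j _ hij
    rw [Function.onFun, Finset.disjoint_left]
    intro Z hi hj
    obtain ⟨e1⟩ := (hS2 i Z hi).2.2.2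
    obtain ⟨e2⟩ := (hS2 j Z hj).2.2.2
    exact (hiso i j hij).false (e1.trans e2.symm)
  have hcount := hc (C' * T) (univ.biUnion S) (by nlinarith) (fun Z hZ => by
    obtain ⟨i, -, hi⟩ := mem_biUnion.1 hZ
    exact ⟨(hS2 i Z hi).1, (hS2 i Z hi).2.1, (hS2 i Z hi).2.2.1⟩)
  rw [card_biUnion hdisj] at hcount
  have hlow : (m : ℝ) * (√(D : ℝ)) ^ r ≤ ((∑ i, (S i).card : ℕ) : ℝ) := by
    push_cast
    calc (m : ℝ) * (√(D : ℝ)) ^ r = ∑ _i : Fin m, (√(D : ℝ)) ^ r := by simp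
      _ ≤ _ := sum_le_sum fun i _ => hS1 i
  have hsq : (√(D : ℝ)) ^ r = (D : ℝ) ^ ((r : ℝ) / 2) := by
    rw [Real.sqrt_eq_rpow, ← Real.rpow_natCast, ← Real.rpow_mul hD0.le]
    congr 1
    ring
  have hup : (C' * T) ^ y ≤ (C' * (n : ℝ) ^ 2) ^ y * (D : ℝ) ^ ((r : ℝ) * b + ε) := by
    rw [hT0, ← mul_assoc, Real.mul_rpow (by positivity) (by positivity),
      ← Real.rpow_mul hD0.le]
    refine mul_le_mul_of_nonneg_left (Real.rpow_le_rpow_of_exponent_le hD1 ?_) (by positivity)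
    have hn0' : (0 : ℝ) < n := by linarith
    rw [hy, inv_mul_le_iff₀ hn0']
    push_cast
    nlinarith
  have hfin : (m : ℝ) * (D : ℝ) ^ ((r : ℝ) / 2) ≤
      C * ((C' * (n : ℝ) ^ 2) ^ y * (D : ℝ) ^ ((r : ℝ) * b + ε)) := by
    rw [← hsq]
    exact hlow.trans (hcount.trans (mul_le_mul_of_nonneg_left hup (by linarith)))
  have hsplit : (D : ℝ) ^ ((r : ℝ) * b + ε) =
      (D : ℝ) ^ ((r : ℝ) * (b - 1 / 2) + ε) * (D : ℝ) ^ ((r : ℝ) / 2) := by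
    rw [← Real.rpow_add hD0]
    congr 1
    ring
  rw [hsplit] at hfin
  have hpos : 0 < (D : ℝ) ^ ((r : ℝ) / 2) := by positivity
  refine le_of_mul_le_mul_right (hfin.trans (le_of_eq ?_)) hpos
  ring

end Pool.Agent.NF98
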