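import Pool.Agent.Lib.NF98.Blue

/-! Minkowski's second theorem, easy constant. -/

namespace Pool.Agent.NF98

open Finset Module MeasureTheory InnerProductSpace
open scoped RealInnerProductSpace

theorem blk_MINKA : St_MINKA := by
  intro n E _ _ _ _ _ L _ _ v μ hn hE hμ hpos hmin
  have hE' : finrank ℝ E = Fintype.card (Fin n) := by rw [hE, Fintype.card_fin]
  set u := gramSchmidtOrthonormalBasis hE' v with hu
  have hn0 : (0 : ℝ) < n := by exact_mod_cast hn
  set B : Set E := {x | ∀ i, |u.repr x i| < μ i / n} with hB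
  have hvol : volume B = ENNReal.ofReal (2 ^ n * (∏ i, μ i) / (n : ℝ) ^ n) := by
    have e : B = u.repr ⁻¹' (WithLp.ofLp ⁻¹'
        Set.pi Set.univ fun i => Set.Ioo (-(μ i / n)) (μ i / n)) := by
      ext x
      simp [hB, abs_lt, Set.mem_pi]
    have hm : MeasurableSet (Set.pi Set.univ fun i => Set.Ioo (-(μ i / n)) (μ i / n)) :=
      MeasurableSet.univ_pi fun _ => measurableSet_Ioo
    rw [e, u.measurePreserving_repr.measure_preimage
      ((WithLp.measurable_ofLp 2 _) hm).nullMeasurableSet,
      (PiLp.volume_preserving_ofLp (Fin n)).measure_preimage hm.nullMeasurableSet,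
      Real.volume_pi_Ioo, ← ENNReal.ofReal_prod_of_nonneg]
    · congr 1
      have : ∀ i, μ i / n - -(μ i / n) = 2 * μ i / n := fun i => by ring
      simp only [this]
      rw [prod_div_distrib, prod_mul_distrib]
      simp
    · intro i _
      have := div_pos (hpos i) hn0
      linarith
  by_contra hlt
  rw [not_le] at hlt
  let b := Module.Free.chooseBasis ℤ L
  have hF := ZLattice.isAddFundamentalDomain b volume
  have hcov := ZLattice.covolume_eq_measure_fundamentalDomain L volume hF
  have hfin : volume (ZSpan.fundamentalDomain (b.ofZLatticeBasis ℝ L)) ≠ ⊤ :=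
    (ZSpan.fundamentalDomain_isBounded _).measure_lt_top.ne
  have : Countable L.toAddSubgroup := by
    change Countable L
    exact Finsupp.Countable.of_moduleFinite (R := ℤ)
  obtain ⟨x, hx0, hx⟩ := exists_ne_zero_mem_lattice_of_measure_mul_two_pow_lt_measure
    (L := L.toAddSubgroup) (s := B) hF
    (fun x hx i => by simpa using hx i)
    (by
      intro x hx y hy a c ha hc hac i
      have h1 := hx i
      have h2 := hy i
      have h3 := (convex_Ioo (-(μ i / n)) (μ i / n)) (abs_lt.1 h1) (abs_lt.1 h2) ha hc hac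
      simpa [abs_lt] using h3)
    (by
      rw [hvol, ← ENNReal.ofReal_toReal hfin, hE, ← Measure.real, ← hcov,
        show (2 : ENNReal) ^ n = ENNReal.ofReal (2 ^ n) by
          rw [ENNReal.ofReal_pow (by norm_num)]; simp,
        ← ENNReal.ofReal_mul (ZLattice.covolume_pos L volume).le,
        ENNReal.ofReal_lt_ofReal_iff (by
          have : 0 < ∏ i, μ i := prod_pos fun i _ => hpos i
          positivity), lt_div_iff₀ (by positivity)]
      have : (0 : ℝ) < 2 ^ n := by positivity
      nlinarith)
  have hx0' : (x : E) ≠ 0 := fun h => hx0 (Subtype.ext h)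
  have hne : (univ.filter fun j => u.repr (x : E) j ≠ 0).Nonempty := by
    by_contra h
    apply hx0'
    apply u.repr.injective
    ext j
    rw [map_zero]
    by_contra hj
    exact h ⟨j, mem_filter.2 ⟨mem_univ _, hj⟩⟩
  set i := (univ.filter fun j => u.repr (x : E) j ≠ 0).max' hne with hi
  have hi1 : u.repr (x : E) i ≠ 0 := (mem_filter.1 (max'_mem _ hne)).2
  have hi2 : ∀ j, i < j → u.repr (x : E) j = 0 := by
    intro j hj
    by_contra h
    exact absurd (le_max' _ j (mem_filter.2 ⟨mem_univ _, h⟩)) (not_le.2 hj)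
  have hout : (x : E) ∉ Submodule.span ℝ (v '' Set.Iio i) := by
    intro h
    apply hi1
    rw [u.repr_apply_apply]
    refine Submodule.span_induction (p := fun y _ => ⟪u i, y⟫ = 0) ?_ ?_ ?_ ?_ h
    · rintro _ ⟨j, hj, rfl⟩
      exact gramSchmidtOrthonormalBasis_inv_triangular hE' v hj
    · simp
    · intro y z _ _ hy hz
      rw [inner_add_right, hy, hz, add_zero]
    · intro a y _ hy
      rw [inner_smul_right, hy, mul_zero]
  have h1 := hmin x x.2 i hout
  have h2 : ‖(x : E)‖ ≤ ∑ j, |u.repr (x : E) j| := by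
    conv_lhs => rw [← u.sum_repr (x : E)]
    refine (norm_sum_le _ _).trans (le_of_eq (sum_congr rfl fun j _ => ?_))
    rw [norm_smul, u.orthonormal.1 j, mul_one, Real.norm_eq_abs]
  have h3 : ∑ j, |u.repr (x : E) j| < ∑ _j : Fin n, μ i / n := by
    refine sum_lt_sum_of_nonempty ⟨i, mem_univ _⟩ fun j _ => ?_
    rcases le_or_gt j i with h | h
    · exact (hx j).trans_le (div_le_div_of_nonneg_right (hμ h) hn0.le)
    · rw [hi2 j h, abs_zero]
      exact div_pos (hpos i) hn0
  rw [sum_const, card_univ, Fintype.card_fin, nsmul_eq_mul, mul_div_cancel₀ _ hn0.ne'] at h3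
  linarith

end Pool.Agent.NF98
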