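import Pool.Agent.Lib.NF98.Blue

namespace Pool.Agent.NF98

open Finset Module NumberField NumberField.mixedEmbedding NumberField.InfinitePlace

namespace PROD

variable {K : Type} [Field K] [NumberField K]

open scoped Classical in
theorem house_le_norm (y : K) (x : euclidean.mixedSpace K)
    (h : euclidean.toMixed K x = mixedEmbedding K y) : house y ≤ ‖x‖ := by
  rw [house, canonicalEmbedding.norm_le_iff]
  intro φ
  have h1 : ‖φ y‖ = normAtPlace (InfinitePlace.mk φ) (mixedEmbedding K y) := by
    rw [normAtPlace_apply, InfinitePlace.apply]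
  rw [h1, ← h]
  rcases isReal_or_isComplex (InfinitePlace.mk φ) with hw | hw
  · rw [normAtPlace_apply_of_isReal hw]
    exact (PiLp.norm_apply_le x.fst ⟨_, hw⟩).trans (WithLp.norm_fst_le _ x)
  · rw [normAtPlace_apply_of_isComplex hw]
    exact (PiLp.norm_apply_le x.snd ⟨_, hw⟩).trans (WithLp.norm_snd_le _ x)

end PROD

open scoped Classical in
theorem blk_PROD (h : St_MINKA) : St_PROD := by
  intro n K _ _ hn ω hω
  obtain ⟨hli, hmono, hmin⟩ := hω
  have hn1 : 1 ≤ n := hn ▸ finrank_pos
  let v : Fin n → euclidean.mixedSpace K :=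
    fun i => (euclidean.toMixed K).symm (mixedEmbedding K (ω i : K))
  have key := h n (euclidean.mixedSpace K) (euclidean.integerLattice K) v
    (fun i => house (ω i : K)) hn1 (by rw [euclidean.finrank, hn]) hmono
    (fun i => lt_of_lt_of_le one_pos (one_le_house_of_isIntegral
      (RingOfIntegers.isIntegral_coe (ω i)) (hli.ne_zero i))) (by
      intro x hx i hi
      have hx' : euclidean.toMixed K x ∈ mixedEmbedding.integerLattice K := hx
      obtain ⟨y, hy⟩ := hx'
      have hy' : euclidean.toMixed K x = mixedEmbedding K (y : K) := hy.symm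
      refine (hmin y i ?_).trans (PROD.house_le_norm _ x hy')
      intro hmem
      apply hi
      have : ∀ z ∈ Submodule.span ℚ ((fun j => (ω j : K)) '' Set.Iio i),
          (euclidean.toMixed K).symm (mixedEmbedding K z) ∈ Submodule.span ℝ (v '' Set.Iio i) := by
        intro z hz
        induction hz using Submodule.span_induction with
        | mem z hz =>
          obtain ⟨j, hj, rfl⟩ := hz
          exact Submodule.subset_span ⟨j, hj, rfl⟩
        | zero => simp
        | add a b _ _ ha hb => rw [map_add, map_add]; exact Submodule.add_mem _ ha hb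
        | smul q a _ ha =>
          rw [map_rat_smul, map_rat_smul, ← Rat.cast_smul_eq_qsmul ℝ]
          exact Submodule.smul_mem _ _ ha
      have h2 := this _ hmem
      rwa [← hy', ContinuousLinearEquiv.symm_apply_apply] at h2)
  refine key.trans (mul_le_mul_of_nonneg_left ?_ (by positivity))
  rw [euclidean.integerLattice, ZLattice.covolume_comap _ _ _ (euclidean.volumePreserving_toMixed K),
    covolume_integerLattice]
  have : ((2 : ℝ)⁻¹) ^ nrComplexPlaces K ≤ 1 := pow_le_one₀ (by norm_num) (by norm_num)
  calc _ ≤ 1 * √|(discr K : ℝ)| := mul_le_mul_of_nonneg_right this (Real.sqrt_nonneg _)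
    _ = _ := one_mul _

end Pool.Agent.NF98
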