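import Pool.Agent.Lib.NF98.Blue

/-! Block SUCC: existence of successive minima for the house. -/

namespace Pool.Agent.NF98

open Module NumberField

namespace SUCC

variable {K : Type} [Field K] [NumberField K]

lemma exists_min {W : Submodule ℚ K} (hW : W ≠ ⊤) :
    ∃ a : 𝓞 K, (a : K) ∉ W ∧ ∀ x : 𝓞 K, (x : K) ∉ W → house (a : K) ≤ house (x : K) := by
  obtain ⟨b, hb⟩ : ∃ b : 𝓞 K, (b : K) ∉ W := by
    by_contra h
    apply hW
    rw [eq_top_iff, ← (integralBasis K).span_eq, Submodule.span_le]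
    rintro _ ⟨i, rfl⟩
    rw [integralBasis_apply]
    by_contra h'
    exact h ⟨_, h'⟩
  have hfin : {x : 𝓞 K | (x : K) ∉ W ∧ house (x : K) ≤ house (b : K)}.Finite := by
    refine Set.Finite.of_finite_image (f := fun x : 𝓞 K => (x : K))
      ((Embeddings.finite_of_norm_le K ℂ (house (b : K))).subset ?_)
      RingOfIntegers.coe_injective.injOn
    rintro _ ⟨x, hx, rfl⟩
    exact ⟨RingOfIntegers.isIntegral_coe x, fun φ => (norm_embedding_le_house _ φ).trans hx.2⟩
  obtain ⟨a, ha, hm⟩ := Set.exists_min_image _ (fun x : 𝓞 K => house (x : K)) hfin ⟨b, hb, le_rfl⟩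
  refine ⟨a, ha.1, fun x hx => ?_⟩
  by_cases h : house (x : K) ≤ house (b : K)
  · exact hm x ⟨hx, h⟩
  · exact ha.2.trans (not_le.1 h).le

lemma step (m : ℕ) (hm : m ≤ finrank ℚ K) : ∃ ω : Fin m → 𝓞 K,
    LinearIndependent ℚ (fun i => (ω i : K)) ∧ ∀ (x : 𝓞 K) (i : Fin m),
      (x : K) ∉ Submodule.span ℚ ((fun j => (ω j : K)) '' Set.Iio i) →
      house (ω i : K) ≤ house (x : K) := by
  induction m with
  | zero => exact ⟨Fin.elim0, linearIndependent_empty_type, fun _ i => i.elim0⟩
  | succ m ih =>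
    obtain ⟨ω, h1, h2⟩ := ih (by omega)
    have hW : Submodule.span ℚ (Set.range fun j => (ω j : K)) ≠ ⊤ := by
      intro h
      have := finrank_span_eq_card h1
      rw [h, finrank_top, Fintype.card_fin] at this
      omega
    obtain ⟨a, ha, hb⟩ := exists_min hW
    refine ⟨Fin.snoc ω a, linearIndependent_finSucc'.2 ?_, fun x i hx => ?_⟩
    · have e : Fin.init (fun i => ((Fin.snoc ω a : Fin (m + 1) → 𝓞 K) i : K)) =
          fun j => (ω j : K) := by
        ext j
        simp [Fin.init]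
      rw [e]
      exact ⟨h1, by simpa using ha⟩
    · induction i using Fin.lastCases with
      | last =>
        rw [Fin.snoc_last]
        refine hb x fun h => hx (Submodule.span_mono ?_ h)
        rintro _ ⟨j, rfl⟩
        exact ⟨j.castSucc, Fin.castSucc_lt_last j, by simp⟩
      | cast i =>
        rw [Fin.snoc_castSucc]
        refine h2 x i fun h => hx (Submodule.span_mono ?_ h)
        rintro _ ⟨j, hj, rfl⟩
        exact ⟨j.castSucc, Fin.castSucc_lt_castSucc_iff.2 hj, by simp⟩

end SUCC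

theorem blk_SUCC : St_SUCC := by
  intro n K _ _ hn
  obtain ⟨ω, h1, h2⟩ := SUCC.step (K := K) n hn.ge
  exact ⟨ω, h1, fun i j hij => h2 (ω j) i (h1.notMem_span_image (not_lt.2 hij)), h2⟩

end Pool.Agent.NF98
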