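import Pool.Agent.Lib.NF98.Blue

namespace Pool.Agent.NF98

open MvPolynomial Finset Module NumberField

namespace TOP

lemma exists_perm {m : ℕ} {K : Type} [Field K] [Algebra ℚ K] (b : Basis (Fin (m + 1)) ℚ K) :
    ∃ s : Equiv.Perm (Fin (m + 1)), ∀ i, b.coord (Fin.last m) (b (s i) * b i) ≠ 0 := by
  set lam := b.coord (Fin.last m) with hlam
  have hdet : (Matrix.of fun i j => lam (b i * b j)).det ≠ 0 := by
    intro h0
    obtain ⟨c, hc, hc'⟩ := Matrix.exists_vecMul_eq_zero_iff.2 h0
    set x := ∑ i, c i • b i with hx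
    have hx0 : x ≠ 0 := fun e => hc (funext
      (Fintype.linearIndependent_iff.1 b.linearIndependent c e))
    have h1 : lam ∘ₗ LinearMap.mulLeft ℚ x = 0 := b.ext fun j => by
      have := congrFun hc' j
      simp only [Matrix.vecMul, dotProduct, Matrix.of_apply, Pi.zero_apply] at this
      simp only [LinearMap.comp_apply, LinearMap.mulLeft_apply, LinearMap.zero_apply, hx,
        sum_mul, smul_mul_assoc, map_sum, map_smul, smul_eq_mul]
      exact this
    have h2 := LinearMap.congr_fun h1 (x⁻¹ * b (Fin.last m))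
    simp only [LinearMap.comp_apply, LinearMap.mulLeft_apply, LinearMap.zero_apply,
      mul_inv_cancel_left₀ hx0, hlam] at h2
    simp at h2
  rw [Matrix.det_apply] at hdet
  obtain ⟨s, -, hs⟩ := exists_ne_zero_of_sum_ne_zero hdet
  refine ⟨s, fun i h => hs ?_⟩
  rw [prod_eq_zero (mem_univ i) (by simpa using h), smul_zero]

end TOP

theorem blk_TOP : St_TOP := by
  intro n K _ _ hn ω hω i
  obtain ⟨m, rfl⟩ : ∃ m, n = m + 1 := ⟨n - 1, by have := i.pos; omega⟩
  obtain ⟨h1, h2, h3⟩ := hω
  set b := basisOfLinearIndependentOfCardEqFinrank h1 (by simp [hn]) with hb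
  have hb' : ∀ j, b j = (ω j : K) := fun j => by simp [hb]
  obtain ⟨s, hs⟩ := TOP.exists_perm b
  have key : ∀ j, house (ω (Fin.last m) : K) ≤ house (ω (s j) : K) * house (ω j : K) := by
    intro j
    refine (h3 (ω (s j) * ω j) (Fin.last m) fun hmem => hs j ?_).trans ?_
    · have hle : Submodule.span ℚ ((fun j => (ω j : K)) '' Set.Iio (Fin.last m))
          ≤ LinearMap.ker (b.coord (Fin.last m)) := by
        rw [Submodule.span_le]
        rintro _ ⟨l, hl, rfl⟩
        have hl' : l ≠ Fin.last m := ne_of_lt hl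
        simp only [SetLike.mem_coe, LinearMap.mem_ker, ← hb', Basis.coord_apply, Basis.repr_self]
        exact Finsupp.single_eq_of_ne' hl'
      have := hle hmem
      rw [LinearMap.mem_ker] at this
      rw [hb', hb']
      simpa using this
    · push_cast
      exact house_mul_le _ _
  calc house (ω i : K) ^ (m + 1) ≤ house (ω (Fin.last m) : K) ^ (m + 1) :=
        pow_le_pow_left₀ (house_nonneg _) (h2 (Fin.le_last i)) _
    _ = ∏ _j : Fin (m + 1), house (ω (Fin.last m) : K) := by simp
    _ ≤ ∏ j, house (ω (s j) : K) * house (ω j : K) :=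
        prod_le_prod (fun _ _ => house_nonneg _) fun j _ => key j
    _ = _ := by
      rw [prod_mul_distrib, Equiv.prod_comp s (fun j => house (ω j : K)), sq]

end Pool.Agent.NF98
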