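import Pool.Agent.Lib.NF98.Blue

namespace Pool.Agent.NF98

open MvPolynomial Finset

namespace GOOD

theorem int_of_fixed (a : Ob) (h : ∀ τ : Fb ≃ₐ[ℚ] Fb, τ (a : Fb) = a) :
    ∃ m : ℤ, (m : Ob) = a := by
  have : IsAlgClosure ℚ Fb := AlgebraicClosure.instIsAlgClosure ℚ
  have : Normal ℚ Fb := IsAlgClosure.normal ℚ Fb
  have : IsGalois ℚ Fb := {}
  obtain ⟨q, hq⟩ := (InfiniteGalois.mem_range_algebraMap_iff_fixed (k := ℚ) (a : Fb)).2 h
  have hi : IsIntegral ℤ (algebraMap ℚ Fb q) := by rw [hq]; exact a.2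
  have hi2 : IsIntegral ℤ q :=
    (isIntegral_algebraMap_iff (algebraMap ℚ Fb).injective).1 hi
  obtain ⟨m, hm⟩ := IsIntegrallyClosed.isIntegral_iff.1 hi2
  refine ⟨m, Subtype.ext ?_⟩
  rw [← hq, ← hm]
  simp

theorem poly_of_fixed (P : Polynomial Ob)
    (h : ∀ τ : Fb ≃ₐ[ℚ] Fb, (P.map (algebraMap Ob Fb)).map (τ : Fb →+* Fb) =
      P.map (algebraMap Ob Fb)) :
    ∃ f : Polynomial ℤ, f.map (Int.castRingHom Ob) = P := by
  rw [← Polynomial.mem_lifts, Polynomial.lifts_iff_coeff_lifts]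
  intro i
  obtain ⟨m, hm⟩ := int_of_fixed (P.coeff i) (fun τ => by
    have := congrArg (fun Q => Polynomial.coeff Q i) (h τ)
    simpa [Polynomial.coeff_map] using this)
  exact ⟨m, by simpa using hm⟩

theorem coe_aeval {n r : ℕ} (Z : V n r → Ob) (δ : R n r) :
    ((aeval Z δ : Ob) : Fb) = aeval (fun v => (Z v : Fb)) δ := by
  exact MvPolynomial.comp_aeval_apply (R := ℤ) Z (integralClosure ℤ Fb).val δ

theorem tau_aeval {n r : ℕ} (W : V n r → Fb) (δ : R n r) (τ : Fb ≃ₐ[ℚ] Fb) :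
    τ (aeval W δ) = aeval (fun v => τ (W v)) δ := by
  exact MvPolynomial.comp_aeval_apply (R := ℤ) W (τ : Fb →+* Fb).toIntAlgHom δ

end GOOD

open GOOD in
theorem blk_GOOD : St_GOOD := by
  intro n r δ c0 hS hD Z hZ hne
  obtain ⟨Δ, hΔ⟩ := int_of_fixed (aeval Z δ) (fun τ => by
    obtain ⟨π, hπ⟩ := hZ τ
    rw [coe_aeval, tau_aeval]
    conv_rhs => rw [← hS π, aeval_rename]
    congr 2
    funext v
    exact hπ v.1 v.2)
  refine ⟨Δ, ?_, hΔ.symm, ?_, ?_, ?_⟩
  · rintro rfl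
    exact hne (by simpa using hΔ.symm)
  · intro i j hij
    have := map_dvd (aeval Z : R n r →ₐ[ℤ] Ob) (hD i j hij)
    rw [hΔ]
    simpa using this
  · apply poly_of_fixed
    intro τ
    obtain ⟨π, hπ⟩ := hZ τ
    simp only [Polynomial.map_prod, Polynomial.map_sub, Polynomial.map_X, Polynomial.map_C]
    rw [← Equiv.prod_comp π (fun j => Polynomial.X - Polynomial.C (algebraMap Ob Fb (Z (j, c0))))]
    refine Finset.prod_congr rfl fun j _ => ?_
    have := hπ j c0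
    congr 2
  · intro c
    apply poly_of_fixed
    intro τ
    obtain ⟨π, hπ⟩ := hZ τ
    simp only [Polynomial.map_sum, Polynomial.map_mul, Polynomial.map_prod, Polynomial.map_sub,
      Polynomial.map_X, Polynomial.map_C]
    rw [← Equiv.sum_comp π (fun j => Polynomial.C (algebraMap Ob Fb (Z (j, c))) *
      ∏ l ∈ univ.erase j, (Polynomial.X - Polynomial.C (algebraMap Ob Fb (Z (l, c0)))))]
    refine Finset.sum_congr rfl fun j _ => ?_
    have h1 : (τ : Fb →+* Fb) (algebraMap Ob Fb (Z (j, c))) = algebraMap Ob Fb (Z (π j, c)) :=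
      hπ j c
    rw [h1]
    congr 1
    refine Finset.prod_equiv π (fun l => by simp) (fun l _ => ?_)
    have h2 : (τ : Fb →+* Fb) (algebraMap Ob Fb (Z (l, c0))) = algebraMap Ob Fb (Z (π l, c0)) :=
      hπ l c0
    rw [h2]

end Pool.Agent.NF98
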