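import Pool.Agent.Lib.NF98.Blue

namespace Pool.Agent.NF98

open MvPolynomial Finset Module

namespace HILB

variable {ι σ F : Type} [Fintype σ] [Field F]

lemma mono (Z : ι → σ → F) : Monotone (Vs Z) := by
  intro s t h
  refine Submodule.span_mono ?_
  rintro w ⟨e, he, rfl⟩
  exact ⟨e, he.trans h, rfl⟩

lemma mem {A : Type} [CommSemiring A] [Algebra A F] (Z : ι → σ → F) (s : ℕ)
    (u : MvPolynomial σ A) (hu : u.totalDegree ≤ s) : (fun x => aeval (Z x) u) ∈ Vs Z s := by
  have h : (fun x => aeval (Z x) u) =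
      ∑ d ∈ u.support, algebraMap A F (coeff d u) • evs Z d := by
    ext x
    rw [aeval_def, eval₂_eq', Finset.sum_apply]
    rfl
  rw [h]
  refine Submodule.sum_mem _ fun d hd => Submodule.smul_mem _ _ (Submodule.subset_span ?_)
  exact ⟨d, (le_totalDegree hd).trans hu, rfl⟩

lemma bound [Fintype ι] (Z : ι → σ → F) (s : ℕ) : Hf Z s ≤ (s + 1) ^ Fintype.card σ := by
  classical
  have h : Vs Z s ≤ Submodule.span F
      (Set.range fun (g : σ → Fin (s + 1)) (x : ι) => ∏ v, Z x v ^ (g v : ℕ)) := by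
    refine Submodule.span_mono ?_
    rintro w ⟨e, he, rfl⟩
    exact ⟨fun v => ⟨e v, Nat.lt_succ_of_le ((Finsupp.le_degree v e).trans he)⟩, rfl⟩
  refine (Submodule.finrank_mono h).trans ((finrank_range_le_card _).trans ?_)
  simp

lemma top [Fintype ι] (Z : ι → σ → F) (hZ : Function.Injective Z) :
    Vs Z (Fintype.card ι) = ⊤ := by
  classical
  have key : ∀ x0 : ι, (Pi.single x0 1 : ι → F) ∈ Vs Z (Fintype.card ι) := by
    intro x0
    have h1 : ∀ x : ι, ∃ P : MvPolynomial σ F, P.totalDegree ≤ 1 ∧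
        (x ≠ x0 → aeval (Z x) P = 0 ∧ aeval (Z x0) P ≠ 0) := by
      intro x
      by_cases hx : x = x0
      · exact ⟨0, by simp, fun h => absurd hx h⟩
      obtain ⟨v, hv⟩ := Function.ne_iff.1 (hZ.ne hx)
      refine ⟨X v - C (Z x v), (totalDegree_sub _ _).trans (by simp), fun _ => ⟨by simp, ?_⟩⟩
      simpa [sub_eq_zero] using hv.symm
    choose P hP hP' using h1
    have h2 : (∏ x ∈ univ.erase x0, P x).totalDegree ≤ Fintype.card ι := by
      refine (totalDegree_finsetProd _ _).trans ((sum_le_card_nsmul _ _ 1 fun x _ => hP x).trans ?_)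
      rw [smul_eq_mul, mul_one]
      exact card_le_univ _
    have h3 := mem Z _ _ h2
    have h4 : aeval (Z x0) (∏ x ∈ univ.erase x0, P x) ≠ 0 := by
      rw [map_prod]
      exact prod_ne_zero_iff.2 fun x hx => (hP' x (ne_of_mem_erase hx)).2
    convert Submodule.smul_mem _ (aeval (Z x0) (∏ x ∈ univ.erase x0, P x))⁻¹ h3 using 1
    ext x
    rw [Pi.smul_apply, smul_eq_mul]
    by_cases hx : x = x0
    · subst hx
      rw [Pi.single_eq_same, inv_mul_cancel₀ h4]
    · have h5 : aeval (Z x) (∏ x ∈ univ.erase x0, P x) = 0 := by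
        rw [map_prod]
        exact prod_eq_zero (mem_erase.2 ⟨hx, mem_univ _⟩) (hP' x hx).1
      rw [Pi.single_eq_of_ne hx, h5, mul_zero]
  rw [eq_top_iff]
  intro w _
  rw [pi_eq_sum_univ' w]
  exact Submodule.sum_mem _ fun x _ => Submodule.smul_mem _ _ (key x)

end HILB

theorem blk_HILB : St_HILB := by
  intro ι σ F _ _ _ Z
  refine ⟨HILB.mono Z, fun s t h => Submodule.finrank_mono (HILB.mono Z h), HILB.bound Z,
    fun hZ => ?_, fun s u hu => HILB.mem Z s u hu⟩
  rw [Hf, HILB.top Z hZ, finrank_top, Module.finrank_fintype_fun_eq_card]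

end Pool.Agent.NF98
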