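import Pool.Agent.Lib.NF98.Blue

namespace Pool.Agent.NF98

open MvPolynomial Finset

namespace SYM

lemma rel_mul {n r : ℕ} {δ δ' : R n r} {s k : ℕ} (h : Rel δ s k) (hd : δ ∣ δ') : Rel δ' s k := by
  obtain ⟨E, rfl⟩ := hd
  intro q hq
  obtain ⟨g, hg, hg'⟩ := h q hq
  refine ⟨C E * g, lt_of_le_of_lt ((totalDegree_mul _ _).trans (by simp)) hg, fun j => ?_⟩
  have := Ideal.mul_mem_left _ (C E) (hg' j)
  rwa [mul_sub, ← mul_assoc, ← C_mul, mul_comm E] at this

end SYM

theorem blk_SYM : St_SYM := by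
  intro n r c0 δ s k h0 h
  refine ⟨(∏ π : Equiv.Perm (Fin n), rename (Prod.map π id) δ) *
    ∏ p ∈ (univ : Finset (Fin n)).offDiag, (X (p.1, c0) - X (p.2, c0)), mul_ne_zero ?_ ?_,
    SYM.rel_mul h (Dvd.dvd.mul_right ?_ _), fun π => ?_, fun i j hij => Dvd.dvd.mul_left ?_ _⟩
  · exact prod_ne_zero_iff.2 fun π _ =>
      (map_ne_zero_iff _ (rename_injective _ (π.injective.prodMap Function.injective_id))).2 h0
  · exact prod_ne_zero_iff.2 fun p hp => sub_ne_zero.2 fun e =>
      (mem_offDiag.1 hp).2.2 (congrArg Prod.fst (X_injective e))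
  · have := dvd_prod_of_mem (fun π : Equiv.Perm (Fin n) => rename (Prod.map π id) δ) (mem_univ 1)
    simpa using this
  · rw [map_mul, map_prod, map_prod]
    congr 1
    · refine Fintype.prod_equiv (Equiv.mulLeft π) _ _ fun σ => ?_
      rw [rename_rename]
      rfl
    · refine prod_equiv (π.prodCongr π) (fun p => by simp) fun p _ => by simp
  · exact dvd_prod_of_mem (fun p : Fin n × Fin n => (X (p.1, c0) - X (p.2, c0) : R n r))
      (a := (i, j)) (by simp [hij])

end Pool.Agent.NF98
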