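import Mathlib

/-! Counting number fields by a Frobenius twisted determinant method: definitions and the
statements of the blocks. -/

namespace Pool.Agent.NF98

open MvPolynomial Finset Module NumberField
open scoped IntermediateField

/-- Variables: the pair `(i, c)` is coordinate `c` of point number `i`. -/
abbrev V (n r : ℕ) : Type := Fin n × Fin r

abbrev R (n r : ℕ) : Type := MvPolynomial (V n r) ℤ

abbrev Fb : Type := AlgebraicClosure ℚ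

abbrev Ob : Type := integralClosure ℤ Fb

/-- The ideal of the locus `Q = P_j`. -/
noncomputable def dI {n r : ℕ} (j : Fin n) : Ideal (MvPolynomial (Fin r) (R n r)) :=
  Ideal.span (Set.range fun c : Fin r => (X c - C (X (j, c)) : MvPolynomial (Fin r) (R n r)))

/-- Where `δ` is invertible, jets of order `< k` at the `n` points are interpolated in
degree `< s`. -/
def Rel {n r : ℕ} (δ : R n r) (s k : ℕ) : Prop :=
  ∀ q : Fin r →₀ ℕ, q.degree = s → ∃ g : MvPolynomial (Fin r) (R n r), g.totalDegree < s ∧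
    ∀ j : Fin n, C δ * monomial q 1 - g ∈ dI j ^ k

def Sym {n r : ℕ} (δ : R n r) : Prop :=
  ∀ π : Equiv.Perm (Fin n), rename (Prod.map π id) δ = δ

def Dif {n r : ℕ} (δ : R n r) (c0 : Fin r) : Prop :=
  ∀ i j : Fin n, i ≠ j → (X (i, c0) - X (j, c0) : R n r) ∣ δ

structure Good {n r : ℕ} (δ : R n r) (c0 : Fin r) {A : Type} [CommRing A] (Z : V n r → A)
    (Δ : ℤ) : Prop where
  ne : Δ ≠ 0
  val : aeval Z δ = (Δ : A)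
  dif : ∀ i j : Fin n, i ≠ j → Z (i, c0) - Z (j, c0) ∣ (Δ : A)
  lift : ∃ f : Polynomial ℤ, f.map (Int.castRingHom A) =
    ∏ j : Fin n, (Polynomial.X - Polynomial.C (Z (j, c0)))
  lag : ∀ c : Fin r, ∃ G : Polynomial ℤ, G.map (Int.castRingHom A) =
    ∑ j : Fin n, Polynomial.C (Z (j, c)) *
      ∏ l ∈ univ.erase j, (Polynomial.X - Polynomial.C (Z (l, c0)))

/-- The Galois group permutes the `n` points. -/
def Stab {n r : ℕ} (Z : V n r → Ob) : Prop :=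
  ∀ τ : Fb ≃ₐ[ℚ] Fb, ∃ π : Equiv.Perm (Fin n), ∀ i c, τ (Z (i, c) : Fb) = (Z (π i, c) : Fb)

def Bdd {n r : ℕ} (T : ℝ) (Z : V n r → Ob) : Prop :=
  ∀ (φ : Fb →+* ℂ) (v : V n r), ‖φ (Z v : Fb)‖ ≤ T

/-! ### Hilbert function of a finite family of points -/

def evs {ι σ F : Type} [Fintype σ] [Field F] (Z : ι → σ → F) (e : σ →₀ ℕ) : ι → F :=
  fun x => ∏ v, Z x v ^ e v

def Vs {ι σ F : Type} [Fintype σ] [Field F] (Z : ι → σ → F) (s : ℕ) : Submodule F (ι → F) :=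
  Submodule.span F {w | ∃ e : σ →₀ ℕ, e.degree ≤ s ∧ w = evs Z e}

noncomputable def Hf {ι σ F : Type} [Fintype σ] [Field F] (Z : ι → σ → F) (s : ℕ) : ℕ :=
  finrank F (Vs Z s)

def Phi (H : ℕ → ℕ) (L : ℕ) : ℕ := ∑ s ∈ range L, (H L - H s)

/-- The inequality given by the determinant. -/
def Ineq (a s k c : ℕ) (H : ℕ → ℕ) (T B : ℝ) : Prop :=
  ∀ (L : ℕ) (P : Finset ℕ), (∀ p ∈ P, p.Prime ∧ c < p) → ∃ β : ℕ → ℕ,
    ∑ p ∈ P, (β p : ℝ) * Real.log p ≤ H L * Real.log B ∧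
    ∑ p ∈ P, ((k * ∑ t ∈ range (L / p + 1),
        (H L - (H (a * p + t * ((s + 1) * p)) + β p)) : ℕ) : ℝ) * Real.log p ≤
      Real.log ((H L).factorial) + Phi H L * Real.log T

/-! ### Algebraic blocks -/

def St_FILT : Prop :=
  ∀ (σ A : Type) [CommRing A] (δ : MvPolynomial σ A) (Γ : Set (MvPolynomial σ A))
    (I : ℕ → Ideal (MvPolynomial σ A)) (s c γ : ℕ),
    δ.totalDegree ≤ c → (∀ g ∈ Γ, g.totalDegree ≤ γ ∧ g ∈ I 1) →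
    (∀ t, I 1 * I t ≤ I (t + 1)) → (∀ t, ∃ e : ℕ, 1 ≤ e ∧ δ ^ e - 1 ∈ I t) →
    (∀ e : σ →₀ ℕ, s ≤ e.degree → ∃ u : MvPolynomial σ A, u.totalDegree < e.degree ∧
      δ * monomial e 1 - u ∈ Ideal.span Γ) →
    ∀ (t : ℕ) (F : MvPolynomial σ A), ∃ u : MvPolynomial σ A,
      u.totalDegree ≤ s + c + t * γ ∧ F - u ∈ I (t + 1)

/-- Jets at points of a grid over a field. -/
def St_GRIDF : Prop :=
  ∀ (n r b k : ℕ) (A : Type) [Field A] (g : Fin b → A) (P : Fin n → Fin r → Fin b),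
    1 ≤ b → 1 ≤ k → Function.Injective g → Function.Injective P →
    ∀ F : MvPolynomial (Fin r) A, ∃ u : MvPolynomial (Fin r) A,
      u.totalDegree < b * k + r * b + 1 ∧
      F - u ∈ ∏ j : Fin n, (Ideal.span (Set.range fun c : Fin r =>
        (X c - C (g (P j c)) : MvPolynomial (Fin r) A))) ^ k

def St_GRID : Prop :=
  ∀ n r b k : ℕ, n ≤ b ^ r → 1 ≤ b → 1 ≤ k →
    ∃ δ : R n r, δ ≠ 0 ∧ Rel δ (b * k + r * b + 1) k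

def St_SYM : Prop :=
  ∀ (n r : ℕ) (c0 : Fin r) (δ : R n r) (s k : ℕ), δ ≠ 0 → Rel δ s k →
    ∃ δ' : R n r, δ' ≠ 0 ∧ Rel δ' s k ∧ Sym δ' ∧ Dif δ' c0

def St_FROB : Prop :=
  ∀ (n r : ℕ) (δ : R n r) (c0 : Fin r) (A : Type) [CommRing A] (Z : V n r → A) (Δ : ℤ) (p : ℕ),
    p.Prime → Good δ c0 Z Δ → ¬ (p : ℤ) ∣ Δ →
    ∀ (k : ℕ) (h : MvPolynomial (Fin r) (R n r)), (∀ j : Fin n, h ∈ dI j ^ k) → ∀ i : Fin n,
      (p : A) ^ k ∣ eval₂ (aeval Z : R n r →ₐ[ℤ] A).toRingHom (fun c => Z (i, c) ^ p) h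

def St_RED : Prop :=
  ∀ (n r : ℕ) (δ : R n r) (c0 : Fin r) (s k : ℕ), Rel δ s k → ∃ c : ℕ, ∀ p : ℕ, p.Prime → c < p →
    ∀ (A : Type) [CommRing A] (ι : Type) (Z : ι → V n r → A) (Δ : ι → ℤ),
      (∀ x, Good δ c0 (Z x) (Δ x) ∧ ¬ (p : ℤ) ∣ Δ x) → ∀ (t : ℕ) (F : R n r), ∃ u : R n r,
        u.totalDegree ≤ (n * (s + r) + 2) * p + t * ((s + 1) * p) ∧
        ∀ x, (p : A) ^ (k * (t + 1)) ∣ aeval (Z x) F - aeval (Z x) u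

def St_DETP : Prop :=
  ∀ (A F : Type) [CommRing A] [Field F] [Algebra A F], Function.Injective (algebraMap A F) →
    ∀ (N J : ℕ) (π : A) (U : ℕ → Submodule F (Fin N → F)) (ρ : ℕ → ℕ)
      (M : Matrix (Fin N) (Fin N) A), π ≠ 0 → Monotone U → (∀ t, finrank F (U t) ≤ ρ t) →
      (∀ i, ∀ t < J, ∃ a : Fin N → A, (fun j => algebraMap A F (a j)) ∈ U t ∧
        ∀ j, π ^ (t + 1) ∣ M i j - a j) →
      π ^ (∑ t ∈ range J, (N - ρ t)) ∣ M.det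

def St_HILB : Prop :=
  ∀ (ι σ F : Type) [Fintype ι] [Fintype σ] [Field F] (Z : ι → σ → F),
    Monotone (Vs Z) ∧ Monotone (Hf Z) ∧ (∀ s, Hf Z s ≤ (s + 1) ^ Fintype.card σ) ∧
    (Function.Injective Z → Hf Z (Fintype.card ι) = Fintype.card ι) ∧
    ∀ (s : ℕ) (u : MvPolynomial σ ℤ), u.totalDegree ≤ s → (fun x => aeval (Z x) u) ∈ Vs Z s

def St_BASIS : Prop :=
  ∀ (ι σ F : Type) [Fintype ι] [Fintype σ] [Field F] (Z : ι → σ → F) (L : ℕ),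
    ∃ (e : Fin (Hf Z L) → σ →₀ ℕ) (col : Fin (Hf Z L) → ι),
      ∑ i, (e i).degree ≤ Phi (Hf Z) L ∧
      (Matrix.of fun i j => evs Z (e i) (col j)).det ≠ 0

def St_ARCH : Prop :=
  (∀ (x : Ob) (M : ℕ) (B : ℝ), x ≠ 0 → (M : Ob) ∣ x → (∀ φ : Fb →+* ℂ, ‖φ (x : Fb)‖ ≤ B) →
    (M : ℝ) ≤ B) ∧
  ∀ (N : ℕ) (M : Matrix (Fin N) (Fin N) ℂ) (w : Fin N → ℝ), (∀ i j, ‖M i j‖ ≤ w i) →
    ‖M.det‖ ≤ N.factorial * ∏ i, w i

/-- The power of one prime dividing the determinant. -/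
def St_ONEP : Prop :=
  ∀ (n r : ℕ) (δ : R n r) (c0 : Fin r) (s k : ℕ), Rel δ s k → ∃ c : ℕ, ∀ p : ℕ, p.Prime → c < p →
    ∀ (ι : Type) [Fintype ι] (Z : ι → V n r → Ob) (Δ : ι → ℤ), (∀ x, Good δ c0 (Z x) (Δ x)) →
      ∀ (N J : ℕ) (e : Fin N → V n r →₀ ℕ) (col : Fin N → ι),
        (p : Ob) ^ (k * ∑ t ∈ range J,
          (N - (Hf (fun x v => (Z x v : Fb)) ((n * (s + r) + 2) * p + t * ((s + 1) * p)) +
            (univ.filter fun j => (p : ℤ) ∣ Δ (col j)).card))) ∣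
        (Matrix.of fun i j => ∏ v, Z (col j) v ^ e i v).det

def St_INEQ : Prop :=
  ∀ (n r : ℕ) (δ : R n r) (c0 : Fin r) (s k : ℕ), Rel δ s k → ∃ c : ℕ,
    ∀ (ι : Type) [Fintype ι] (Z : ι → V n r → Ob) (Δ : ι → ℤ) (T B : ℝ), 1 ≤ T →
      (∀ x, Good δ c0 (Z x) (Δ x) ∧ Bdd T (Z x) ∧ |(Δ x : ℝ)| ≤ B) →
      Ineq (n * (s + r) + 2) s k c (Hf fun x v => (Z x v : Fb)) T B

/-! ### Numerical blocks -/

def St_MERT : Prop :=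
  ∀ y W : ℕ, 1 ≤ y → Real.log y - 1 - W ≤
    ∑ p ∈ (Ioc W y).filter Nat.Prime, Real.log p / ((p : ℝ) - 1)

/-- First half of the numerical argument: the determinant inequality in closed form. -/
def St_NUMA : Prop :=
  ∀ (a s k c : ℕ) (H : ℕ → ℕ) (T B : ℝ), 1 ≤ B → Monotone H → Ineq a s k c H T B →
    ∀ L W : ℕ, c ≤ W → s + 2 ≤ W → 1 ≤ L →
      (k : ℝ) / (s + 2) * Phi H L * (Real.log L - 1 - W) ≤
        H L * Real.log (H L) + Phi H L * Real.log T + 2 * k * a * L * H L +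
          2 * k * L * H L * Real.log B / W

def St_NUMB : Prop :=
  ∀ (a s k c m : ℕ) (C₁ η ε : ℝ), 1 ≤ k → 0 ≤ C₁ → 0 < η → 0 < ε → ∃ C : ℝ, 1 ≤ C ∧
    ∀ (H : ℕ → ℕ) (T : ℝ), 2 ≤ T → Monotone H → (∀ j, H j ≤ (j + 1) ^ m) →
      (∀ L W : ℕ, c ≤ W → s + 2 ≤ W → 1 ≤ L →
        (k : ℝ) / (s + 2) * Phi H L * (Real.log L - 1 - W) ≤
          H L * Real.log (H L) + Phi H L * Real.log T + 2 * k * a * L * H L +
            2 * k * L * H L * Real.log (T ^ C₁) / W) →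
      ∀ l : ℕ, C * T ^ (((s : ℝ) + 2) / k + ε) ≤ l → (1 - η) * H (2 * l) ≤ H l

def St_ITER : Prop :=
  ∀ θ : ℝ, 0 < θ → ∃ η C : ℝ, 0 < η ∧ 1 ≤ C ∧ ∀ (H : ℕ → ℕ) (l M : ℕ) (B : ℝ), 1 ≤ l → 1 ≤ B →
    Monotone H → H M = M → (H l : ℝ) ≤ B → (∀ j : ℕ, l ≤ j → (1 - η) * H (2 * j) ≤ H j) →
      (M : ℝ) ≤ C * B ^ (1 + θ)

def St_GOOD : Prop :=
  ∀ (n r : ℕ) (δ : R n r) (c0 : Fin r), Sym δ → Dif δ c0 → ∀ Z : V n r → Ob, Stab Z →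
    aeval Z δ ≠ 0 → ∃ Δ : ℤ, Good δ c0 Z Δ

def St_DBND : Prop :=
  ∀ (n r : ℕ) (δ : R n r), ∃ C₁ : ℝ, 0 ≤ C₁ ∧ ∀ (T : ℝ) (Z : V n r → Ob) (Δ : ℤ), 2 ≤ T →
    Bdd T Z → aeval Z δ = (Δ : Ob) → |(Δ : ℝ)| ≤ T ^ C₁

def St_COUNT : Prop :=
  ∀ (n r b : ℕ) (c0 : Fin r) (ε : ℝ), n ≤ b ^ r → 1 ≤ b → 0 < ε →
    ∃ δ : R n r, δ ≠ 0 ∧ Dif δ c0 ∧ ∃ C : ℝ, 1 ≤ C ∧ ∀ (T : ℝ) (S : Finset (V n r → Ob)), 2 ≤ T →
      (∀ Z ∈ S, Stab Z ∧ Bdd T Z ∧ aeval Z δ ≠ 0) →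
      (S.card : ℝ) ≤ C * T ^ ((b * r * n : ℕ) + ε)

/-! ### Geometry of numbers -/

def St_MINKA : Prop :=
  ∀ (n : ℕ) (E : Type) [NormedAddCommGroup E] [InnerProductSpace ℝ E] [FiniteDimensional ℝ E]
    [MeasurableSpace E] [BorelSpace E] (L : Submodule ℤ E) [DiscreteTopology L] [IsZLattice ℝ L]
    (v : Fin n → E) (μ : Fin n → ℝ), 1 ≤ n → finrank ℝ E = n → Monotone μ → (∀ i, 0 < μ i) →
    (∀ x ∈ L, ∀ i, x ∉ Submodule.span ℝ (v '' Set.Iio i) → μ i ≤ ‖x‖) →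
    ∏ i, μ i ≤ (n : ℝ) ^ n * ZLattice.covolume L MeasureTheory.volume

/-- `ω` realises the successive minima of the ring of integers for the house. -/
def IsSucc {n : ℕ} {K : Type} [Field K] [NumberField K] (ω : Fin n → 𝓞 K) : Prop :=
  LinearIndependent ℚ (fun i => (ω i : K)) ∧ (Monotone fun i => house (ω i : K)) ∧
    ∀ (x : 𝓞 K) (i : Fin n), (x : K) ∉ Submodule.span ℚ ((fun j => (ω j : K)) '' Set.Iio i) →
      house (ω i : K) ≤ house (x : K)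

def St_SUCC : Prop :=
  ∀ (n : ℕ) (K : Type) [Field K] [NumberField K], finrank ℚ K = n →
    ∃ ω : Fin n → 𝓞 K, IsSucc ω

def St_PROD : Prop :=
  ∀ (n : ℕ) (K : Type) [Field K] [NumberField K], finrank ℚ K = n → ∀ ω : Fin n → 𝓞 K,
    IsSucc ω → ∏ i, house (ω i : K) ≤ (n : ℝ) ^ n * √|(discr K : ℝ)|

def St_TOP : Prop :=
  ∀ (n : ℕ) (K : Type) [Field K] [NumberField K], finrank ℚ K = n → ∀ ω : Fin n → 𝓞 K,
    IsSucc ω → ∀ i, house (ω i : K) ^ n ≤ (∏ j, house (ω j : K)) ^ 2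

/-! ### From a field to points -/

/-- The point given by the conjugates of `r` integers of `K`. -/
noncomputable def pt {n r : ℕ} {K : Type} [Field K] [NumberField K]
    (σ : Fin n ≃ (K →ₐ[ℚ] Fb)) (y : Fin r → 𝓞 K) : V n r → Ob :=
  fun v => ⟨σ v.1 (y v.2 : K),
    ((RingOfIntegers.isIntegral_coe (y v.2)).map (σ v.1).toRingHom.toIntAlgHom)⟩

def St_BOX : Prop :=
  ∀ (τ F : Type) [Fintype τ] [Field F] [CharZero F] (Ψ : MvPolynomial τ F) (M : τ → ℕ) (d : ℕ),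
    Ψ ≠ 0 → Ψ.totalDegree ≤ d → ∃ S : Finset (τ → ℕ), ∏ v, M v ≤ S.card ∧
      ∀ t ∈ S, (∀ v, t v < (d + 1) * M v) ∧ eval (fun v => (t v : F)) Ψ ≠ 0

def St_EMB : Prop :=
  ∀ (n r : ℕ) (K : Type) [Field K] [NumberField K] (σ : Fin n ≃ (K →ₐ[ℚ] Fb)),
    (∀ y : Fin r → 𝓞 K, Stab (pt σ y)) ∧
    (∀ (y : Fin r → 𝓞 K) (T : ℝ), (∀ c, house (y c : K) ≤ T) → Bdd T (pt σ y)) ∧
    Function.Injective (fun y : Fin r → 𝓞 K => pt σ y) ∧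
    ∀ (y : Fin r → 𝓞 K) (i0 : Fin n) (c0 : Fin r),
      (∀ i j, i ≠ j → pt σ y (i, c0) ≠ pt σ y (j, c0)) →
      Nonempty (K ≃+* ℚ⟮(pt σ y (i0, c0) : Fb)⟯)

def St_LIN : Prop :=
  ∀ (n r : ℕ) (K : Type) [Field K] [NumberField K] (σ : Fin n ≃ (K →ₐ[ℚ] Fb))
    (ω : Fin n → 𝓞 K) (δ : R n r), LinearIndependent ℚ (fun i => (ω i : K)) → δ ≠ 0 →
    ∃ Ψ : MvPolynomial (Fin r × Fin n) Fb, Ψ ≠ 0 ∧ Ψ.totalDegree ≤ δ.totalDegree ∧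
      ∀ t : Fin r × Fin n → ℕ, eval (fun v => (t v : Fb)) Ψ =
        ((aeval (pt σ fun c => ∑ l, (t (c, l) : 𝓞 K) * ω l) δ : Ob) : Fb)

def St_FIELD : Prop :=
  ∀ (n r : ℕ) (i0 : Fin n) (c0 : Fin r) (δ : R n r), δ ≠ 0 → Dif δ c0 → ∃ C : ℝ, 1 ≤ C ∧
    ∀ (K : Type) [Field K] [NumberField K], finrank ℚ K = n → ∀ (ω : Fin n → 𝓞 K) (T : ℝ),
      LinearIndependent ℚ (fun i => (ω i : K)) → (∀ i, house (ω i : K) ≤ T) →
      ∃ S : Finset (V n r → Ob), (T ^ n / ∏ i, house (ω i : K)) ^ r ≤ S.card ∧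
        ∀ Z ∈ S, Stab Z ∧ Bdd (C * T) Z ∧ aeval Z δ ≠ 0 ∧
          Nonempty (K ≃+* ℚ⟮(Z (i0, c0) : Fb)⟯)

def St_MAIN : Prop :=
  ∀ n r b : ℕ, 2 ≤ n → n ≤ b ^ r → ∀ ε : ℝ, 0 < ε → ∃ C : ℝ, ∀ D : ℕ, 1 ≤ D →
    ∀ m : ℕ, ∀ (K : Fin m → Type) [∀ i, Field (K i)] [∀ i, NumberField (K i)],
      (∀ i, Module.finrank ℚ (K i) = n) →
      (∀ i, (NumberField.discr (K i)).natAbs ≤ D) →
      (∀ i j, i ≠ j → IsEmpty (K i ≃+* K j)) →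
      (m : ℝ) ≤ C * (D : ℝ) ^ ((r : ℝ) * (b - 1 / 2) + ε)

end Pool.Agent.NF98
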