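import Pool.Agent.Lib.NF98.Blue

/-! Counting good points. -/

namespace Pool.Agent.NF98

open MvPolynomial Finset Module

namespace COUNT

lemma exists_par (b r m : ℕ) (ε : ℝ) (hε : 0 < ε) :
    ∃ (k : ℕ) (e θ : ℝ), 1 ≤ k ∧ 0 < e ∧ 0 < θ ∧
      ((((b * k + r * b + 1 : ℕ) : ℝ) + 2) / k + e) * m * (1 + θ) ≤ b * m + ε := by
  have hc : ContinuousAt (fun x : ℝ => ((b : ℝ) + 2 * x) * m * (1 + x)) 0 := by fun_prop
  have h0 : ((b : ℝ) + 2 * 0) * m * (1 + 0) < b * m + ε := by simpa using hε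
  have hev := hc.eventually_lt continuousAt_const h0
  obtain ⟨δ, hδ, hb⟩ := Metric.eventually_nhds_iff.1 hev
  have hx : ((b : ℝ) + 2 * (δ / 2)) * m * (1 + δ / 2) < b * m + ε :=
    hb (by rw [Real.dist_eq, sub_zero, abs_of_pos (half_pos hδ)]; linarith)
  obtain ⟨k, hk⟩ := exists_nat_ge (((r : ℝ) * b + 3) / (δ / 2))
  refine ⟨k + 1, δ / 2, δ / 2, by omega, half_pos hδ, half_pos hδ, le_trans ?_ hx.le⟩
  have hk0 : (0 : ℝ) < (k + 1 : ℕ) := by positivity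
  have h1 : (((b * (k + 1) + r * b + 1 : ℕ) : ℝ) + 2) / (k + 1 : ℕ) ≤ b + δ / 2 := by
    rw [div_le_iff₀ hk0]
    rw [div_le_iff₀ (half_pos hδ)] at hk
    push_cast
    nlinarith [half_pos hδ]
  have h2 : (0 : ℝ) ≤ 1 + δ / 2 := by positivity
  refine mul_le_mul_of_nonneg_right (mul_le_mul_of_nonneg_right ?_ (Nat.cast_nonneg m)) h2
  linarith

end COUNT

theorem blk_COUNT (hG : St_GRID) (hS : St_SYM) (hI : St_INEQ) (hA : St_NUMA) (hB : St_NUMB)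
    (hT : St_ITER) (hO : St_GOOD) (hD : St_DBND) (hH : St_HILB) : St_COUNT := by
  intro n r b c0 ε hn hb hε
  obtain ⟨k, e, θ, hk, he, hθ, hpar⟩ := COUNT.exists_par b r (n * r) ε hε
  set s := b * k + r * b + 1 with hs
  obtain ⟨δ0, hδ0, hR0⟩ := hG n r b k hn hb hk
  obtain ⟨δ, hδ, hR, hsym, hdif⟩ := hS n r c0 δ0 s k hδ0 hR0
  obtain ⟨c, hc⟩ := hI n r δ c0 s k hR
  obtain ⟨C₁, hC₁, hd⟩ := hD n r δ
  obtain ⟨η, C₂, hη, hC₂, hit⟩ := hT θ hθ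
  obtain ⟨C₃, hC₃, hnb⟩ := hB (n * (s + r) + 2) s k c (n * r) C₁ η e hk hC₁ hη he
  set x : ℝ := ((s : ℝ) + 2) / k + e with hx
  have hx0 : 0 ≤ x := by positivity
  refine ⟨δ, hδ, hdif, C₂ * ((3 * C₃) ^ (n * r)) ^ (1 + θ), ?_, ?_⟩
  · have h1 : (1 : ℝ) ≤ (3 * C₃) ^ (n * r) := one_le_pow₀ (by linarith)
    have h2 : (1 : ℝ) ≤ ((3 * C₃) ^ (n * r)) ^ (1 + θ) := Real.one_le_rpow h1 (by linarith)
    nlinarith
  intro T S hT2 hS
  have hT1 : (1 : ℝ) ≤ T := by linarith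
  have hT0 : (0 : ℝ) < T := by linarith
  have hex : ∀ Z : S, ∃ Δ : ℤ, Good δ c0 (Z : V n r → Ob) Δ := fun Z =>
    hO n r δ c0 hsym hdif Z (hS Z Z.2).1 (hS Z Z.2).2.2
  choose Δ hΔ using hex
  set Zf : S → V n r → Fb := fun Z v => ((Z : V n r → Ob) v : Fb) with hZf
  have hB1 : (1 : ℝ) ≤ T ^ C₁ := Real.one_le_rpow hT1 hC₁
  have hineq := hc S (fun Z => (Z : V n r → Ob)) Δ T (T ^ C₁) hT1 (fun Z =>
    ⟨hΔ Z, (hS Z Z.2).2.1, hd T Z (Δ Z) hT2 (hS Z Z.2).2.1 (hΔ Z).val⟩)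
  obtain ⟨-, hmono, hbd, hinj, -⟩ := hH S (V n r) Fb Zf
  have hcard : Fintype.card (V n r) = n * r := by simp [V]
  rw [hcard] at hbd
  have hsat := hnb (Hf Zf) T hT2 hmono hbd (hA _ s k c (Hf Zf) T (T ^ C₁) hB1 hmono hineq)
  have hZinj : Function.Injective Zf := by
    intro Z W h
    apply Subtype.ext
    funext v
    exact Subtype.ext (congrFun h v)
  have hTx : (1 : ℝ) ≤ T ^ x := Real.one_le_rpow hT1 hx0
  have hy : (1 : ℝ) ≤ C₃ * T ^ x := by nlinarith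
  set l := ⌈C₃ * T ^ x⌉₊ with hl
  have hl1 : 1 ≤ l := Nat.one_le_ceil_iff.2 (by linarith)
  have hl2 : (l : ℝ) + 1 ≤ 3 * C₃ * T ^ x := by
    have := Nat.ceil_lt_add_one (show 0 ≤ C₃ * T ^ x by linarith)
    linarith
  have hBl : (Hf Zf l : ℝ) ≤ (3 * C₃ * T ^ x) ^ (n * r) := by
    calc (Hf Zf l : ℝ) ≤ ((l : ℝ) + 1) ^ (n * r) := by exact_mod_cast hbd l
      _ ≤ _ := pow_le_pow_left₀ (by positivity) hl2 _
  have hfin := hit (Hf Zf) l (Fintype.card S) ((3 * C₃ * T ^ x) ^ (n * r)) hl1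
    (one_le_pow₀ (by nlinarith)) hmono (hinj hZinj) hBl (fun j hj => hsat j (by
      have h1 : C₃ * T ^ x ≤ l := Nat.le_ceil _
      have h2 : (l : ℝ) ≤ j := by exact_mod_cast hj
      exact h1.trans h2))
  rw [Fintype.card_coe] at hfin
  refine hfin.trans ?_
  rw [mul_pow, Real.mul_rpow (by positivity) (by positivity), ← mul_assoc]
  refine mul_le_mul_of_nonneg_left ?_ (by positivity)
  rw [← Real.rpow_natCast, ← Real.rpow_mul hT0.le, ← Real.rpow_mul hT0.le]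
  refine Real.rpow_le_rpow_of_exponent_le hT1 (hpar.trans ?_)
  push_cast
  linarith

end Pool.Agent.NF98
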