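import Pool.Agent.Lib.NF98.Blue

/-! Degree reduction along a filtration of ideals. -/

namespace Pool.Agent.NF98

open MvPolynomial Finset

namespace FILT

variable {σ A : Type} [CommRing A]

/-- congruent modulo `J` to a polynomial of degree at most `d` -/
def P (J : Ideal (MvPolynomial σ A)) (d : ℕ) (F : MvPolynomial σ A) : Prop :=
  ∃ u : MvPolynomial σ A, u.totalDegree ≤ d ∧ F - u ∈ J

variable {J : Ideal (MvPolynomial σ A)} {d : ℕ}

lemma P.self {F : MvPolynomial σ A} (h : F.totalDegree ≤ d) : P J d F :=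
  ⟨F, h, by rw [sub_self]; exact J.zero_mem⟩

lemma P.add {F G : MvPolynomial σ A} (h : P J d F) (h' : P J d G) : P J d (F + G) := by
  obtain ⟨u, h1, h2⟩ := h
  obtain ⟨v, h3, h4⟩ := h'
  refine ⟨u + v, (totalDegree_add u v).trans (max_le h1 h3), ?_⟩
  have : F + G - (u + v) = (F - u) + (G - v) := by ring
  rw [this]
  exact J.add_mem h2 h4

lemma P.cmul (a : A) {F : MvPolynomial σ A} (h : P J d F) : P J d (C a * F) := by
  obtain ⟨u, h1, h2⟩ := h
  refine ⟨C a * u, (totalDegree_mul _ _).trans (by rw [totalDegree_C, zero_add]; exact h1), ?_⟩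
  rw [← mul_sub]
  exact J.mul_mem_left _ h2

lemma P.mono {d' : ℕ} (hd : d ≤ d') {F : MvPolynomial σ A} (h : P J d F) : P J d' F := by
  obtain ⟨u, h1, h2⟩ := h
  exact ⟨u, h1.trans hd, h2⟩

lemma P.of_sub {F G : MvPolynomial σ A} (h : P J d G) (hFG : F - G ∈ J) : P J d F := by
  obtain ⟨u, h1, h2⟩ := h
  refine ⟨u, h1, ?_⟩
  have : F - u = (F - G) + (G - u) := by ring
  rw [this]
  exact J.add_mem hFG h2

lemma P.sum {ι : Type} (S : Finset ι) (f : ι → MvPolynomial σ A) (h : ∀ i ∈ S, P J d (f i)) :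
    P J d (∑ i ∈ S, f i) :=
  Finset.sum_induction f (P J d) (fun _ _ => P.add) (P.self (by simp)) h

lemma stepA {δ : MvPolynomial σ A} {s c : ℕ} (hδ : δ.totalDegree ≤ c)
    (h : ∀ e : σ →₀ ℕ, s ≤ e.degree → ∃ u : MvPolynomial σ A, u.totalDegree < e.degree ∧
      δ * monomial e 1 - u ∈ J) (hd : s + c ≤ d) {F : MvPolynomial σ A}
    (hF : F.totalDegree ≤ d + 1) : P J d (δ * F) := by
  rw [F.as_sum, mul_sum]
  refine P.sum _ _ fun e he => ?_
  have h1 : δ * monomial e (coeff e F) = C (coeff e F) * (δ * monomial e 1) := by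
    rw [mul_left_comm, C_mul_monomial, mul_one]
  have h2 : e.degree ≤ d + 1 := (le_totalDegree he).trans hF
  rw [h1]
  refine P.cmul _ ?_
  by_cases hs : s ≤ e.degree
  · obtain ⟨u, h3, h4⟩ := h e hs
    exact ⟨u, by omega, h4⟩
  · have h3 : (monomial e (1 : A)).totalDegree ≤ e.degree := totalDegree_monomial_le e 1
    exact P.self ((totalDegree_mul _ _).trans (by omega))

lemma base {δ : MvPolynomial σ A} {s c k : ℕ} (hδ : δ.totalDegree ≤ c)
    (h : ∀ e : σ →₀ ℕ, s ≤ e.degree → ∃ u : MvPolynomial σ A, u.totalDegree < e.degree ∧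
      δ * monomial e 1 - u ∈ J) (hk : 1 ≤ k) (hJ : δ ^ k - 1 ∈ J) (F : MvPolynomial σ A) :
    P J (s + c) F := by
  have stepB : ∀ d, s + c ≤ d → ∀ G, P J (d + 1) G → P J d (δ * G) := by
    rintro d hd G ⟨u, h1, h2⟩
    refine (stepA hδ h hd h1).of_sub ?_
    rw [← mul_sub]
    exact J.mul_mem_left _ h2
  have stepC : ∀ d, s + c ≤ d → ∀ G, P J (d + 1) G → ∀ m : ℕ, P J d (δ ^ (m + 1) * G) := by
    intro d hd G hG m
    induction m with
    | zero => simpa using stepB d hd G hG
    | succ m ih =>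
      have := stepB d hd _ (ih.mono (Nat.le_succ d))
      rwa [← mul_assoc, ← pow_succ'] at this
  have stepD : ∀ m, P J (s + c + m) F → P J (s + c) F := by
    intro m
    induction m with
    | zero => exact id
    | succ m ih =>
      intro hm
      obtain ⟨k, rfl⟩ : ∃ k', k = k' + 1 := ⟨k - 1, by omega⟩
      refine ih ((stepC (s + c + m) (by omega) F hm k).of_sub ?_)
      have : F - δ ^ (k + 1) * F = -F * (δ ^ (k + 1) - 1) := by ring
      rw [this]
      exact J.mul_mem_left _ hJ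
  exact stepD F.totalDegree (P.self (by omega))

end FILT

theorem blk_FILT : St_FILT := by
  intro σ A _ δ Γ I s c γ hδ hΓ hI he h t
  have hsp : Ideal.span Γ ≤ I 1 := Ideal.span_le.2 fun g hg => (hΓ g hg).2
  induction t with
  | zero =>
    intro F
    obtain ⟨k, hk, hk'⟩ := he 1
    have := FILT.base (J := I 1) hδ (fun e hs => by
      obtain ⟨u, h1, h2⟩ := h e hs
      exact ⟨u, h1, hsp h2⟩) hk hk' F
    simpa [FILT.P] using this
  | succ t ih =>
    intro F
    have key : ∀ a ∈ Ideal.span Γ, ∀ G : MvPolynomial σ A,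
        FILT.P (I (t + 1 + 1)) (s + c + (t + 1) * γ) (G * a) := by
      intro a ha
      induction ha using Submodule.span_induction with
      | mem g hg =>
        intro G
        obtain ⟨u, h1, h2⟩ := ih G
        refine ⟨u * g, (totalDegree_mul _ _).trans ?_, ?_⟩
        · have := (hΓ g hg).1
          rw [add_mul, one_mul]
          omega
        · rw [← sub_mul, mul_comm]
          exact hI (t + 1) (Ideal.mul_mem_mul (hΓ g hg).2 h2)
      | zero => intro G; exact FILT.P.self (by simp)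
      | add x y _ _ hx hy => intro G; rw [mul_add]; exact (hx G).add (hy G)
      | smul r x _ hx => intro G; rw [smul_eq_mul, ← mul_assoc]; exact hx _
    obtain ⟨k, hk, hk'⟩ := he (t + 1 + 1)
    obtain ⟨u, h1, h2⟩ := FILT.base (J := Ideal.span Γ ⊔ I (t + 1 + 1)) hδ (fun e hs => by
      obtain ⟨u, h1, h2⟩ := h e hs
      exact ⟨u, h1, Ideal.mem_sup_left h2⟩) hk (Ideal.mem_sup_right hk') F
    obtain ⟨a, ha, b, hb, hab⟩ := Submodule.mem_sup.1 h2
    have h3 : FILT.P (I (t + 1 + 1)) (s + c + (t + 1) * γ) (u + 1 * a) :=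
      (FILT.P.self (h1.trans (Nat.le_add_right _ _))).add (key a ha 1)
    refine h3.of_sub ?_
    have : F - (u + 1 * a) = b := by linear_combination -hab
    rw [this]
    exact hb

end Pool.Agent.NF98
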